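import Pool.Agent.MP_c6eade_gt.Mg.Stable

-- part MP_c6eade_gt.Amen
section

/-!
Approximation passes from the stabilisers of an amenable action to the acting group.
-/

namespace Pool.Agent.MP_c6eade_gt

open Filter Topology Matrix TM

universe u v

variable {H : Type u} [Group H]
variable {ι κ α β : Type} [Fintype ι] [Fintype κ] [Fintype α] [Fintype β]

lemma hs_mul_sa {M : TM.{v}} (Φ : Matrix κ ι M.N) {X : Matrix ι ι M.N} (hX : Xᴴ = X) :
    hs (Φ * X) = (ttr (Φᴴ * Φ * (X * X))).re := by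
  rw [hs, conjTranspose_mul, hX, Matrix.mul_assoc, ttr_comm]
  simp only [Matrix.mul_assoc]

lemma norm_one_sub_pk {M : TM.{v}} [DecidableEq ι] (C : Matrix κ ι M.N) (v : M.Hs ι) :
    ‖mop (1 - pk C) v‖ ≤ 1 * ‖v‖ := by
  rw [mop_sub, mop_one, mop_pk, one_mul, ← Submodule.starProjection_orthogonal_val]
  exact Submodule.norm_starProjection_apply_le _ _

lemma nul_le_card {M : TM.{v}} (C : Matrix κ ι M.N) : nul C ≤ Fintype.card ι := by
  classical
  have h := hs_mul_le (pk C) (1 : Matrix ι ι M.N) (norm_pk_le C)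
  rw [Matrix.mul_one, ← nul_eq_hs, hs, Matrix.mul_one, conjTranspose_one, ttr_one] at h
  simpa using h

/-- The matrix that assembles a vector from its parts on finitely many cosets. -/
noncomputable def asm (ι : Type) [DecidableEq ι] (σ : α → H) :
    Matrix ι (ι × α) (MonoidAlgebra ℂ H) :=
  Matrix.of fun i p => if i = p.1 then MonoidAlgebra.single (σ p.2) 1 else 0

lemma asm_map {M : TM.{v}} (θ : H →* unitary M.N) [DecidableEq ι] (σ : α → H) (i : ι)
    (p : ι × α) : ev θ (asm ι σ i p) = if i = p.1 then (θ (σ p.2) : M.N) else 0 := by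
  simp only [asm, Matrix.of_apply]
  split_ifs <;> simp [ev_single]

lemma asm_mul_conj {M : TM.{v}} (θ : H →* unitary M.N) [DecidableEq ι] (σ : α → H) :
    (asm ι σ).map (ev θ) * ((asm ι σ).map (ev θ))ᴴ =
      ((Fintype.card α : ℝ) : ℂ) • (1 : Matrix ι ι M.N) := by
  refine Matrix.ext fun i j => ?_
  rw [Matrix.mul_apply, Fintype.sum_prod_type, Finset.sum_eq_single i]
  · by_cases hij : i = j
    · subst hij
      simp [asm_map, conjTranspose_apply, Unitary.coe_mul_star_self, Nat.cast_smul_eq_nsmul,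
        -Complex.coe_smul]
    · simp [asm_map, conjTranspose_apply, hij, Ne.symm hij]
  · intro k _ hk; simp [asm_map, hk.symm]
  · simp

lemma τ_rho_mul {K : Subgroup H} {h : H} (hh : h ∉ K) (x : MonoidAlgebra ℂ K) :
    (reg H).τ ((rho H h).1 * ev ((rho H).comp K.subtype) x) = 0 := by
  induction x using MonoidAlgebra.induction_linear with
  | zero => simp
  | add x y hx hy => rw [map_add, mul_add, map_add, hx, hy, add_zero]
  | single k a =>
    have h1 := chr_rho_comp (MonoidHom.id H) (h * k)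
    rw [if_neg] at h1
    · rw [ev_single, mul_smul_comm, map_smul, MonoidHom.comp_apply, ← Submonoid.coe_mul, ← map_mul]
      exact smul_eq_zero_of_right _ h1
    · intro h2
      exact hh ((eq_inv_of_mul_eq_one_left h2).symm ▸ K.inv_mem k.2)

lemma ttr_asm [DecidableEq ι] {K : Subgroup H} {σ : α → H}
    (hσ : ∀ a a', (σ a)⁻¹ * σ a' ∈ K → a = a') (X : Matrix (ι × α) (ι × α) (MonoidAlgebra ℂ K)) :
    ttr (((asm ι σ).map (ev (rho H)))ᴴ * (asm ι σ).map (ev (rho H)) *
      X.map (ev ((rho H).comp K.subtype))) = ttr (X.map (ev ((rho H).comp K.subtype))) := by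
  rw [ttr_eq, ttr_eq]
  refine Finset.sum_congr rfl fun p _ => ?_
  have h1 : ∀ q : ι × α, (((asm ι σ).map (ev (rho H)))ᴴ * (asm ι σ).map (ev (rho H))) p q =
      if p.1 = q.1 then (rho H ((σ p.2)⁻¹ * σ q.2)).1 else 0 := by
    intro q
    rw [Matrix.mul_apply, Finset.sum_eq_single p.1]
    · rw [conjTranspose_apply, Matrix.map_apply, Matrix.map_apply, asm_map, asm_map, if_pos rfl,
        star_model]
      split_ifs <;> simp
    · intro k _ hk; simp [conjTranspose_apply, asm_map, hk]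
    · simp
  rw [Matrix.mul_apply, map_sum, Finset.sum_eq_single p]
  · simp [h1]
  · intro q _ hq
    rw [h1]
    split_ifs with h
    · exact τ_rho_mul (fun h' => hq (Prod.ext h.symm (hσ _ _ h').symm)) _
    · simp
  · simp

open Classical in
/-- The truncation of a matrix to finitely many cosets. -/
noncomputable def trn (K : Subgroup H) (σ : α → H) (σ' : β → H)
    (C : Matrix κ ι (MonoidAlgebra ℂ H)) : Matrix (κ × β) (ι × α) (MonoidAlgebra ℂ K) :=
  Matrix.of fun q p => ∑ g ∈ (C q.1 p.1).coeff.support,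
    if h : (σ' q.2)⁻¹ * (g * σ p.2) ∈ K then MonoidAlgebra.single ⟨_, h⟩ ((C q.1 p.1).coeff g)
    else 0

lemma mul_asm {M : TM.{v}} (θ : H →* unitary M.N) [DecidableEq ι] [DecidableEq κ]
    {K : Subgroup H} {σ : α → H} {σ' : β → H} (hσ' : ∀ b b', (σ' b)⁻¹ * σ' b' ∈ K → b = b')
    {C : Matrix κ ι (MonoidAlgebra ℂ H)}
    (hC : ∀ k i, ∀ g ∈ (C k i).coeff.support, ∀ a, ∃ b, (σ' b)⁻¹ * (g * σ a) ∈ K) :
    C.map (ev θ) * (asm ι σ).map (ev θ) =
      (asm κ σ').map (ev θ) * (trn K σ σ' C).map (ev (θ.comp K.subtype)) := by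
  refine Matrix.ext fun k p => ?_
  rw [Matrix.mul_apply, Matrix.mul_apply, Finset.sum_eq_single p.1, Fintype.sum_prod_type,
    Finset.sum_eq_single k]
  · simp only [asm_map, if_true, Matrix.map_apply, trn, Matrix.of_apply, map_sum, Finset.mul_sum]
    rw [ev_apply, Finset.sum_mul, Finset.sum_comm]
    refine Finset.sum_congr rfl fun g hg => ?_
    obtain ⟨b, hb⟩ := hC k p.1 g hg p.2
    rw [Finset.sum_eq_single b, dif_pos hb, ev_single, mul_smul_comm, smul_mul_assoc,
      MonoidHom.comp_apply, ← Submonoid.coe_mul, ← Submonoid.coe_mul, ← map_mul, ← map_mul]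
    · simp
    · intro b' _ hb'
      rw [dif_neg, map_zero, mul_zero]
      intro h
      refine hb' (hσ' _ _ ?_)
      simpa [mul_assoc] using K.mul_mem h (K.inv_mem hb)
    · simp
  · intro k' _ hk; simp [asm_map, hk.symm]
  · simp
  · intro i _ hi; simp [asm_map, hi]
  · simp

lemma rk_trn_le {K : Subgroup H} {σ : α → H} {σ' : β → H}
    (hσ' : ∀ b b', (σ' b)⁻¹ * σ' b' ∈ K → b = b') {C : Matrix κ ι (MonoidAlgebra ℂ H)}
    (hC : ∀ k i, ∀ g ∈ (C k i).coeff.support, ∀ a, ∃ b, (σ' b)⁻¹ * (g * σ a) ∈ K) :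
    rk ((trn K σ σ' C).map (ev ((rho H).comp K.subtype))) ≤
      Fintype.card β * rk (C.map (ev (rho H))) := by
  classical
  have h0 := mul_asm (rho H) hσ' hC
  rw [← rk_conj, ← rk_conj (C.map _)]
  have ht := tendsto_nul (adm_map ((rho H).comp K.subtype) (stM (trn K σ σ' C)))
  rw [map_stM] at ht
  have h3 : ∀ n, hs ((asm κ σ').map (ev (rho H)) * pk ((trn K σ σ' C).map
      (ev ((rho H).comp K.subtype)))ᴴ) ≤ (ttr (ctr (cb (stM (trn K σ σ' C))) ((trn K σ σ' C).map
      (ev ((rho H).comp K.subtype)))ᴴ ^ (2 * n))).re := by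
    intro n
    refine ((le_add_of_nonneg_right (hs_nonneg _)).trans
      (hs_mul_ctr_pow (c := cb (stM (trn K σ σ' C))) _ n).ge).trans (le_of_eq ?_)
    rw [hs_mul_sa _ (ctr_pow_conj n), ← pow_add, ← two_mul, ← map_stM, ← map_stM, ← map_actr_pow,
      map_stM, ttr_asm hσ']
  have h4 := ge_of_tendsto' ht h3
  have hΦ := asm_mul_conj (ι := κ) (rho H) σ'
  set T := (trn K σ σ' C).map (ev ((rho H).comp K.subtype))
  set Φ := (asm ι σ).map (ev (rho H))
  set Φ' := (asm κ σ').map (ev (rho H))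
  set C' := C.map (ev (rho H))
  have h1 : pk Tᴴ * (Φ'ᴴ * pk C'ᴴ) = Φ'ᴴ * pk C'ᴴ := pk_mul_of _ (by
    rw [← Matrix.mul_assoc, ← conjTranspose_mul, ← h0, conjTranspose_mul, Matrix.mul_assoc, mul_pk,
      Matrix.mul_zero])
  have h2 : pk C'ᴴ * (Φ' * pk Tᴴ) = pk C'ᴴ * Φ' := by
    have := congrArg conjTranspose h1
    simpa only [conjTranspose_mul, pk_conj, conjTranspose_conjTranspose, Matrix.mul_assoc]
      using this
  have hsa : ∀ {μ ν : Type} [Fintype μ] [Fintype ν] [DecidableEq ν] (X : Matrix μ ν (reg H).N),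
      (1 - pk X)ᴴ = 1 - pk X ∧ (1 - pk X) * (1 - pk X) = 1 - pk X := fun X =>
    ⟨by rw [conjTranspose_sub, conjTranspose_one, pk_conj], by
      simp [Matrix.mul_sub, Matrix.sub_mul, pk_mul_pk]⟩
  have h5 := hs_mul_proj_le Φ' (1 - pk Tᴴ) (1 - pk C'ᴴ) _ hΦ (hsa _).1 (norm_one_sub_pk _)
    (hsa _).1 (hsa _).2 (by simp [Matrix.mul_sub, Matrix.sub_mul, h2])
  rw [hs_mul_sa _ (hsa _).1, (hsa _).2, Matrix.mul_sub, Matrix.mul_one, ttr_sub, ttr_comm, hΦ,
    ttr_smul, ttr_one, ttr_sub, ttr_one] at h5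
  rw [hs_mul_sa _ (pk_conj _), pk_mul_pk] at h4
  simp only [Complex.sub_re, Complex.natCast_re, Complex.re_ofReal_mul] at h5
  simp only [rk, Fintype.card_prod, Nat.cast_mul]
  simp only [nul] at h4 ⊢
  linarith

lemma hs_asm_le {M : TM.{v}} (θ : H →* unitary M.N) [DecidableEq ι] [DecidableEq α]
    {K : Subgroup H} {σ : α → H} {σ' : β → H}
    (hσ' : ∀ b b', (σ' b)⁻¹ * σ' b' ∈ K → b = b') {C : Matrix κ ι (MonoidAlgebra ℂ H)}
    (hC : ∀ k i, ∀ g ∈ (C k i).coeff.support, ∀ a, ∃ b, (σ' b)⁻¹ * (g * σ a) ∈ K)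
    (c : ℝ) (n : ℕ) :
    (lin (chr θ) (stM (asm ι σ) * asm ι σ * (actr c (trn K σ σ' C) ^ (2 * n)).map
        (MonoidAlgebra.mapDomain K.subtype)).trace).re ≤
      Fintype.card α * nul (C.map (ev θ)) + nb (asm ι σ) ^ 2 *
        ((lin (chr (θ.comp K.subtype)) (actr c (trn K σ σ' C) ^ (2 * n)).trace).re -
          nul ((trn K σ σ' C).map (ev (θ.comp K.subtype)))) := by
  classical
  have h0 := mul_asm θ hσ' hC
  have e : ∀ X : Matrix (ι × α) (ι × α) (MonoidAlgebra ℂ K),
      (X.map (MonoidAlgebra.mapDomain K.subtype)).map (ev θ) = X.map (ev (θ.comp K.subtype)) :=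
    fun X => Matrix.ext fun _ _ => (ev_comp _ _ _).symm
  rw [← ttr_map, ← ttr_map, Matrix.map_mul, Matrix.map_mul, e, map_actr_pow, map_stM,
    ← hs_ctr_pow, two_mul, pow_add, ← hs_mul_sa _ (ctr_pow_conj n), hs_mul_ctr_pow]
  have h1 := hs_mul_ctr_pow (c := c) (C := (trn K σ σ' C).map (ev (θ.comp K.subtype)))
    (1 : Matrix (ι × α) (ι × α) M.N) n
  simp only [Matrix.one_mul] at h1
  refine add_le_add (hs_mul_proj_le _ _ _ _ (asm_mul_conj θ σ) (pk_conj _) (norm_pk_le _)
    (pk_conj _) (pk_mul_pk _) (pk_mul_of _ ?_)) ?_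
  · rw [← Matrix.mul_assoc, h0, Matrix.mul_assoc, mul_pk, Matrix.mul_zero]
  · rw [h1, nul_eq_hs, add_sub_cancel_left]
    exact hs_mul_le _ _ (norm_mop_map_le θ _)

/-- Approximation of nullities along a sequence of homomorphisms. -/
def AP {Q : ℕ → Type u} [∀ i, Group (Q i)] (π : ∀ i, H →* Q i) : Prop :=
  ∀ (ι κ : Type) [Fintype ι] [Fintype κ] (B : Matrix κ ι (MonoidAlgebra ℂ H)),
    Tendsto (fun i => dd (π i) B) atTop (𝓝 (dd (MonoidHom.id H) B))

variable {Q : ℕ → Type u} [∀ i, Group (Q i)] {π : ∀ i, H →* Q i}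

lemma lower_of_cosets (hπ : ∀ g, g ≠ 1 → ∀ᶠ i in atTop, π i g ≠ 1) {K : Subgroup H}
    (hK : AP fun i => (π i).comp K.subtype) {σ : α → H} {σ' : β → H}
    (hσ : ∀ a a', (σ a)⁻¹ * σ a' ∈ K → a = a')
    (hσ' : ∀ b b', (σ' b)⁻¹ * σ' b' ∈ K → b = b') {C : Matrix κ ι (MonoidAlgebra ℂ H)}
    (hC : ∀ k i, ∀ g ∈ (C k i).coeff.support, ∀ a, ∃ b, (σ' b)⁻¹ * (g * σ a) ∈ K)
    {η : ℝ} (hη : 0 < η) :
    ∀ᶠ i in atTop, Fintype.card α * Fintype.card ι -
      Fintype.card β * (Fintype.card ι - dd (MonoidHom.id H) C) - η <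
        Fintype.card α * dd (π i) C := by
  classical
  set T := trn K σ σ' C with hT
  set m := nb (asm ι σ) ^ 2 with hm
  have h1 := rk_trn_le hσ' hC
  have h2 := hK _ _ T
  rw [dd_congr (π := MonoidHom.id K) (π' := K.subtype) (fun g => by simp)] at h2
  have h3 := tendsto_nul (adm_map ((rho H).comp K.subtype) T)
  have h4 : Tendsto (fun n => m * ((ttr (ctr (cb T) (T.map (ev ((rho H).comp K.subtype))) ^
      (2 * n))).re - dd K.subtype T)) atTop (𝓝 0) := by
    simpa [dd] using (h3.sub_const (dd K.subtype T)).const_mul m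
  obtain ⟨n, hn⟩ := (h4.eventually (gt_mem_nhds hη)).exists
  have h5 := nul_le_mom (c := cb T) (C := T.map (ev ((rho H).comp K.subtype))) n
  rw [← map_actr_pow] at hn h5
  have hχ := chr_tendsto hπ
  have h6 := (Complex.continuous_re.tendsto _).comp (tendsto_lin hχ
    (stM (asm ι σ) * asm ι σ * (actr (cb T) T ^ (2 * n)).map
        (MonoidAlgebra.mapDomain K.subtype)).trace)
  have h7 := (Complex.continuous_re.tendsto _).comp (tendsto_lin
    (χ := fun i => chr (((rho (Q i)).comp (π i)).comp K.subtype))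
    (χ₀ := chr ((rho H).comp K.subtype)) (fun g => hχ g) (actr (cb T) T ^ (2 * n)).trace)
  have e : ∀ X : Matrix (ι × α) (ι × α) (MonoidAlgebra ℂ K),
      (X.map (MonoidAlgebra.mapDomain K.subtype)).map (ev (rho H)) =
        X.map (ev ((rho H).comp K.subtype)) :=
    fun X => Matrix.ext fun _ _ => (ev_comp _ _ _).symm
  rw [MonoidHom.comp_id, ← ttr_map, Matrix.map_mul, Matrix.map_mul, e, map_stM, ttr_asm hσ] at h6
  rw [← ttr_map] at h7
  have h8 := h6.sub ((h7.sub h2).const_mul m)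
  have h9 : Fintype.card α * Fintype.card ι -
      Fintype.card β * (Fintype.card ι - dd (MonoidHom.id H) C) - η <
      (ttr ((actr (cb T) T ^ (2 * n)).map (ev ((rho H).comp K.subtype)))).re -
      m * ((ttr ((actr (cb T) T ^ (2 * n)).map (ev ((rho H).comp K.subtype)))).re -
        dd K.subtype T) := by
    simp only [rk, Fintype.card_prod, Nat.cast_mul] at h1
    simp only [dd, MonoidHom.comp_id] at hn ⊢
    linarith
  filter_upwards [h8.eventually (lt_mem_nhds h9)] with i hi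
  have h10 := hs_asm_le ((rho (Q i)).comp (π i)) hσ' hC (cb T) n
  exact hi.trans_le (sub_le_iff_le_add.2 h10)

lemma ap_of_lower (hπ : ∀ g, g ≠ 1 → ∀ᶠ i in atTop, π i g ≠ 1)
    (h : ∀ (ι κ : Type) [Fintype ι] [Fintype κ] (B : Matrix κ ι (MonoidAlgebra ℂ H)) (ε : ℝ),
      0 < ε → ∀ᶠ i in atTop, dd (MonoidHom.id H) B - ε < dd (π i) B) : AP π := by
  intro ι κ _ _ B
  rw [tendsto_order]
  refine ⟨fun a ha => ?_, fun a ha => ?_⟩
  · simpa using h ι κ B _ (sub_pos.2 ha)
  · simpa using dd_usc hπ B (sub_pos.2 ha)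

lemma exists_folner_orbit {X : Type u} [MulAction H X] (h : AmenableAction H X) (S : Finset H)
    {ε : ℝ} (hε : 0 < ε) : ∃ (x : X) (F F' : Finset X), F.Nonempty ∧
      (∀ y ∈ F, y ∈ MulAction.orbit H x) ∧ (∀ y ∈ F', y ∈ MulAction.orbit H x) ∧
      (∀ s ∈ S, ∀ y ∈ F, s • y ∈ F') ∧ (F'.card : ℝ) ≤ (1 + ε) * F.card := by
  classical
  obtain ⟨F, hF, hS⟩ := h S (ε / (S.card + 1)) (by positivity)
  let w : X → ℝ := fun y => (S.filter fun s => s • y ∉ F).card
  have h1 : ∑ y ∈ F, w y ≤ ∑ y ∈ F, ε := by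
    have h2 : ∑ y ∈ F, w y = ∑ s ∈ S, ((F.filter fun y => s • y ∉ F).card : ℝ) := by
      simp only [w, Finset.card_filter, Nat.cast_sum]
      exact Finset.sum_comm
    have h3 : ∀ s ∈ S, ((F.filter fun y => s • y ∉ F).card : ℝ) ≤ ε / (S.card + 1) * F.card := by
      intro s hs
      convert hS s hs using 2
      rw [← Set.ncard_coe_finset]
      congr 1
      ext y; simp
    rw [h2]
    refine (Finset.sum_le_sum h3).trans ?_
    simp only [Finset.sum_const, nsmul_eq_mul]
    have h4 : (S.card : ℝ) * (ε / (S.card + 1)) ≤ ε := by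
      rw [← mul_div_assoc, div_le_iff₀ (by positivity)]; nlinarith
    nlinarith [(Nat.cast_nonneg F.card : (0 : ℝ) ≤ F.card)]
  let o : X → MulAction.orbitRel.Quotient H X := Quotient.mk _
  rw [← Finset.sum_fiberwise_of_maps_to (t := F.image o) (g := o)
    (fun y hy => Finset.mem_image_of_mem o hy),
    ← Finset.sum_fiberwise_of_maps_to (s := F) (t := F.image o) (g := o)
    (fun y hy => Finset.mem_image_of_mem o hy)] at h1
  obtain ⟨c, hc, h2⟩ := Finset.exists_le_of_sum_le (hF.image o) h1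
  obtain ⟨x, hx, rfl⟩ := Finset.mem_image.1 hc
  set F₀ := F.filter fun y => o y = o x with hF₀
  have h3 : ∀ y ∈ F₀, y ∈ MulAction.orbit H x := fun y hy =>
    Quotient.exact (Finset.mem_filter.1 hy).2
  refine ⟨x, F₀, F₀ ∪ F₀.biUnion fun y => (S.filter fun s => s • y ∉ F).image (· • y),
    ⟨x, by simp [hF₀, hx]⟩, h3, ?_, ?_, ?_⟩
  · intro y hy
    rcases Finset.mem_union.1 hy with hy | hy
    · exact h3 y hy
    · obtain ⟨z, hz, hy⟩ := Finset.mem_biUnion.1 hy
      obtain ⟨s, -, rfl⟩ := Finset.mem_image.1 hy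
      obtain ⟨g, rfl⟩ := h3 z hz
      exact ⟨s * g, mul_smul _ _ _⟩
  · intro s hs y hy
    by_cases hsy : s • y ∈ F
    · refine Finset.mem_union_left _ (Finset.mem_filter.2 ⟨hsy, ?_⟩)
      rw [← (Finset.mem_filter.1 hy).2]
      exact Quotient.sound ⟨s, rfl⟩
    · exact Finset.mem_union_right _ (Finset.mem_biUnion.2 ⟨y, hy,
        Finset.mem_image.2 ⟨s, Finset.mem_filter.2 ⟨hs, hsy⟩, rfl⟩⟩)
  · have h4 := (Finset.card_union_le F₀ (F₀.biUnion fun y =>
      (S.filter fun s => s • y ∉ F).image (· • y))).trans (Nat.add_le_add_left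
        (Finset.card_biUnion_le.trans (Finset.sum_le_sum fun y _ => Finset.card_image_le)) _)
    have h5 := (Nat.cast_le (α := ℝ)).2 h4
    simp only [Finset.sum_const, nsmul_eq_mul, w] at h2
    push_cast at h5
    linarith

theorem ap_of_amenable {X : Type u} [MulAction H X] (h : AmenableAction H X)
    (hπ : ∀ g, g ≠ 1 → ∀ᶠ i in atTop, π i g ≠ 1)
    (hK : ∀ x : X, AP fun i => (π i).comp (MulAction.stabilizer H x).subtype) : AP π := by
  classical
  refine ap_of_lower hπ fun ι κ _ _ C ε hε => ?_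
  obtain ⟨x, F, F', hF, h1, h2, h3, h4⟩ := exists_folner_orbit h
    (Finset.univ.biUnion fun q : κ × ι => (C q.1 q.2).coeff.support)
    (ε := ε / (2 * (Fintype.card ι + 1))) (by positivity)
  have key : ∀ E : Finset X, (∀ y ∈ E, y ∈ MulAction.orbit H x) → ∃ σ : Fin E.card → H,
      (∀ a a', (σ a)⁻¹ * σ a' ∈ MulAction.stabilizer H x → a = a') ∧
      ∀ a, σ a • x = E.equivFin.symm a := by
    intro E hE
    choose σ hσ using fun a : Fin E.card => hE _ (E.equivFin.symm a).2
    refine ⟨σ, fun a a' h => E.equivFin.symm.injective (Subtype.ext ?_), hσ⟩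
    rw [MulAction.mem_stabilizer_iff, mul_smul, inv_smul_eq_iff] at h
    exact (hσ a).symm.trans (h.symm.trans (hσ a'))
  obtain ⟨σ, hσ, hσx⟩ := key F h1
  obtain ⟨σ', hσ', hσx'⟩ := key F' h2
  have hF0 : (0 : ℝ) < F.card := by exact_mod_cast hF.card_pos
  have h5 := lower_of_cosets hπ (hK x) hσ hσ' (C := C) (fun k i g hg a => ?_)
    (η := ε / 2 * F.card) (by positivity)
  · filter_upwards [h5] with i hi
    simp only [Fintype.card_fin] at hi
    have h6 : 0 ≤ dd (MonoidHom.id H) C := nul_nonneg _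
    have h7 : dd (MonoidHom.id H) C ≤ Fintype.card ι := nul_le_card _
    have h8 : ε / (2 * (Fintype.card ι + 1)) * (Fintype.card ι - dd (MonoidHom.id H) C) ≤ ε / 2 := by
      rw [div_mul_eq_mul_div, div_le_div_iff₀ (by positivity) (by positivity)]
      nlinarith
    have h9 := mul_le_mul_of_nonneg_right h4 (sub_nonneg.2 h7)
    refine lt_of_mul_lt_mul_left ?_ hF0.le
    nlinarith
  · have hg' := h3 g (Finset.mem_biUnion.2 ⟨(k, i), Finset.mem_univ _, hg⟩) _ (F.equivFin.symm a).2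
    refine ⟨F'.equivFin ⟨_, hg'⟩, ?_⟩
    rw [MulAction.mem_stabilizer_iff, mul_smul, inv_smul_eq_iff, hσx', mul_smul, hσx]
    simp

end Pool.Agent.MP_c6eade_gt

end

-- part MP_c6eade_gt.Main
section

/-!
Induction over the class of groups and the approximation theorem.
-/

namespace Pool.Agent.MP_c6eade_gt

open Filter Topology Matrix

universe u

/-- The invariant that is carried through the induction over the class. -/
def Good (D : Type u) [Group D] : Prop :=
  ∀ (H : Type u) [Group H] (Q : ℕ → Type u) [∀ i, Group (Q i)] (π : ∀ i, H →* Q i) (ψ : H →* D),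
    (∀ g, g ≠ 1 → ∀ᶠ i in atTop, π i g ≠ 1) →
    (∀ᶠ i in atTop, NLe (MonoidHom.id H) (ψ.prod (π i))) → AP π

lemma Good.of_sle {G D : Type u} [Group G] [Group D] {φ : G →* D} (h : SLe φ) (hD : Good D) :
    Good G := by
  intro H _ Q _ π ψ hπ hψ
  refine hD H Q π (φ.comp ψ) hπ ?_
  filter_upwards [hψ] with i hi
  exact hi.trans ((h (Q i)).comp (ψ.prod (π i)))

lemma good_punit : Good PUnit.{u + 1} := by
  intro H _ Q _ π ψ hπ hψ
  refine ap_of_lower hπ fun ι κ _ _ B ε hε => ?_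
  filter_upwards [hψ] with i hi
  have h := (hi.trans (NLe.of_iff (π' := π i) fun g => by simp [Prod.ext_iff])) ι κ B
  linarith

lemma good_of_inClass {D : Type u} [Group D] (h : InClass D) : Good D := by
  induction h with
  | raag Γ => exact Good.of_sle (φ := 1) ((sle_raag Γ).of_iff fun g => by simp) good_punit
  | hnn C _ ih => exact Good.of_sle (sle_hnn C) ih
  | tree φ hφ _ ih => exact Good.of_sle (sle_tree φ hφ) ih
  | @amenable D _ X _ hX _ ih =>
    intro H _ Q _ π ψ hπ hψ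
    classical
    let _ : MulAction H X := MulAction.compHom X ψ
    refine ap_of_amenable (X := X) (fun S ε hε => ?_) hπ fun x => ?_
    · obtain ⟨F, hF, hS⟩ := hX (S.image ψ) ε hε
      exact ⟨F, hF, fun s hs => hS _ (Finset.mem_image_of_mem ψ hs)⟩
    · refine ih x _ Q _ ((ψ.comp (MulAction.stabilizer H x).subtype).codRestrict _ fun g => g.2)
        (fun g hg => hπ g (by simpa using hg)) ?_
      filter_upwards [hψ] with i hi
      refine (NLe.of_iff fun g => ?_).trans
        ((hi.comp (MulAction.stabilizer H x).subtype).trans (NLe.of_iff fun g => ?_))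
      · simp
      · simp [Prod.ext_iff, Subtype.ext_iff]

lemma FreeOnTree.mono {G : Type u} [Group G] {M M' : Subgroup G} (h : FreeOnTree M)
    (h' : M' ≤ M) : FreeOnTree M' := by
  obtain ⟨V, T, a, hT, hf⟩ := h
  exact ⟨V, T, a, hT, fun g hg => hf g (h' hg)⟩

lemma SLe.nle {G D : Type u} [Group G] [Group D] {φ : G →* D} (h : SLe φ) :
    NLe (MonoidHom.id G) φ :=
  (NLe.of_iff fun g => by simp [Prod.ext_iff]).trans
    (((h PUnit).comp (MonoidHom.inl G PUnit)).trans (NLe.of_iff fun g => by simp [Prod.ext_iff]))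

theorem approx {G D : Type u} [Group G] [Group D] (hD : InClass D) (φ : G →* D)
    (N : ℕ → Subgroup G) [∀ i, (N i).Normal] (hanti : Antitone N) (hinf : ⨅ i, N i = ⊥)
    (i₀ : ℕ) (hfree : FreeOnTree (N i₀ ⊓ φ.ker))
    {r s : ℕ} (A : Matrix (Fin r) (Fin s) (MonoidAlgebra ℂ G)) :
    Tendsto
      (fun i => vnDim (kerRight (A.map (MonoidAlgebra.mapDomain (QuotientGroup.mk' (N i))))))
      atTop (𝓝 (vnDim (kerRight A))) := by
  have h := good_of_inClass hD G (fun i => G ⧸ N i) (fun i => QuotientGroup.mk' (N i)) φ ?_ ?_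
    _ _ (A.map (MonoidAlgebra.mapDomain fun g : G => g⁻¹))ᵀ
  · rw [vnDim_kerRight]
    refine h.congr fun i => ?_
    rw [vnDim_kerRight]
    refine (dd_comp (MonoidHom.id _) (QuotientGroup.mk' (N i)) _).trans ?_
    congr 1
    refine Matrix.ext fun j k => MonoidAlgebra.ext ?_
    simp only [Matrix.map_apply, Matrix.transpose_apply, MonoidAlgebra.mapDomain,
      ← Finsupp.mapDomain_comp]
    rfl
  · intro g hg
    obtain ⟨i, hi⟩ : ∃ i, g ∉ N i := by
      by_contra h
      push Not at h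
      exact hg (Subgroup.mem_bot.1 (hinf ▸ Subgroup.mem_iInf.2 h))
    filter_upwards [eventually_ge_atTop i] with j hj h
    exact hi (hanti hj ((QuotientGroup.eq_one_iff g).1 h))
  · filter_upwards [eventually_ge_atTop i₀] with i hi
    refine (sle_tree _ (hfree.mono fun g hg => ?_)).nle
    rw [MonoidHom.ker_prod, QuotientGroup.ker_mk'] at hg
    exact ⟨hanti hi hg.2, hg.1⟩

end Pool.Agent.MP_c6eade_gt

end
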