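import Pool.Agent.MP_c6eade_gt.Defs
import Pool.Agent.MP_c6eade_gt.Dim

-- part MP_c6eade_gt.Model
section

/-!
Unitary models of a group in a tracial commutant; the nullity depends only on the character and
is upper semicontinuous; the regular model.
-/

namespace Pool.Agent.MP_c6eade_gt

open Filter Topology Matrix TM
open scoped InnerProductSpace ENNReal

universe u v w

variable {G : Type u} [Group G]
variable {ι κ μ : Type} [Fintype ι] [Fintype κ] [Fintype μ]

/-- The algebra map attached to a unitary model. -/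
noncomputable def ev {M : TM.{v}} (θ : G →* unitary M.N) : MonoidAlgebra ℂ G →ₐ[ℂ] M.N :=
  MonoidAlgebra.lift ℂ M.N G ((unitary M.N).subtype.comp θ)

lemma ev_single {M : TM.{v}} (θ : G →* unitary M.N) (g : G) (a : ℂ) :
    ev θ (MonoidAlgebra.single g a) = a • (θ g : M.N) := by simp [ev]

lemma ev_apply {M : TM.{v}} (θ : G →* unitary M.N) (x : MonoidAlgebra ℂ G) :
    ev θ x = ∑ g ∈ x.coeff.support, x.coeff g • (θ g : M.N) := by
  rw [ev, MonoidAlgebra.lift_apply]; rfl

/-- The involution of the group algebra. -/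
noncomputable def st (x : MonoidAlgebra ℂ G) : MonoidAlgebra ℂ G :=
  ∑ g ∈ x.coeff.support, MonoidAlgebra.single g⁻¹ (star (x.coeff g))

lemma star_model {M : TM.{v}} (θ : G →* unitary M.N) (g : G) :
    star (θ g : M.N) = (θ g⁻¹ : M.N) := by
  rw [map_inv, ← Unitary.star_eq_inv, Unitary.coe_star]

lemma ev_st {M : TM.{v}} (θ : G →* unitary M.N) (x : MonoidAlgebra ℂ G) :
    ev θ (st x) = star (ev θ x) := by
  rw [st, map_sum, ev_apply, star_sum]
  refine Finset.sum_congr rfl fun g _ => ?_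
  rw [ev_single, star_smul, star_model]

/-- The adjoint of a matrix over the group algebra. -/
noncomputable def stM (B : Matrix κ ι (MonoidAlgebra ℂ G)) : Matrix ι κ (MonoidAlgebra ℂ G) :=
  (B.map st)ᵀ

lemma map_stM {M : TM.{v}} (θ : G →* unitary M.N) (B : Matrix κ ι (MonoidAlgebra ℂ G)) :
    (stM B).map (ev θ) = (B.map (ev θ))ᴴ := by
  ext i k : 2
  simp [stM, ev_st]

/-- The linear extension of a function on the group. -/
noncomputable def lin (χ : G → ℂ) (x : MonoidAlgebra ℂ G) : ℂ :=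
  ∑ g ∈ x.coeff.support, x.coeff g * χ g

/-- The character of a model. -/
noncomputable def chr {M : TM.{v}} (θ : G →* unitary M.N) (g : G) : ℂ := M.τ (θ g)

lemma τ_ev {M : TM.{v}} (θ : G →* unitary M.N) (x : MonoidAlgebra ℂ G) :
    M.τ (ev θ x) = lin (chr θ) x := by
  simp [ev_apply, lin, chr]

lemma ttr_map {M : TM.{v}} (θ : G →* unitary M.N) (X : Matrix ι ι (MonoidAlgebra ℂ G)) :
    ttr (X.map (ev θ)) = lin (chr θ) X.trace := by
  rw [← τ_ev, ttr, ← AddMonoidHom.map_trace]

lemma tendsto_lin {α : Type*} {l : Filter α} {χ : α → G → ℂ} {χ₀ : G → ℂ}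
    (h : ∀ g, Tendsto (fun a => χ a g) l (𝓝 (χ₀ g))) (x : MonoidAlgebra ℂ G) :
    Tendsto (fun a => lin (χ a) x) l (𝓝 (lin χ₀ x)) :=
  tendsto_finsetSum _ fun g _ => (h g).const_mul _

/-- A bound for the operator of a matrix that does not depend on the model. -/
noncomputable def nb (B : Matrix κ ι (MonoidAlgebra ℂ G)) : ℝ :=
  ∑ k, ∑ i, ∑ g ∈ (B k i).coeff.support, ‖(B k i).coeff g‖

lemma norm_model_le {M : TM.{v}} (U : unitary M.N) : ‖(U : M.N)‖ ≤ 1 := by
  rcases subsingleton_or_nontrivial M.N with h | h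
  · rw [Subsingleton.elim (U : M.N) 0]; simp
  · exact (CStarRing.norm_coe_unitary U).le

lemma norm_mop_map_le {M : TM.{v}} (θ : G →* unitary M.N) (B : Matrix κ ι (MonoidAlgebra ℂ G))
    (v : M.Hs ι) : ‖mop (B.map (ev θ)) v‖ ≤ nb B * ‖v‖ := by
  refine (norm_mop_le _ v).trans (mul_le_mul_of_nonneg_right ?_ (norm_nonneg _))
  refine Finset.sum_le_sum fun k _ => Finset.sum_le_sum fun i _ => ?_
  rw [Matrix.map_apply, ev_apply]
  refine (norm_sum_le _ _).trans (Finset.sum_le_sum fun g _ => ?_)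
  rw [norm_smul]
  exact mul_le_of_le_one_right (norm_nonneg _) (norm_model_le _)

/-- The canonical step size. -/
noncomputable def cb (B : Matrix κ ι (MonoidAlgebra ℂ G)) : ℝ := 1 / (1 + nb B ^ 2)

lemma adm_map {M : TM.{v}} (θ : G →* unitary M.N) (B : Matrix κ ι (MonoidAlgebra ℂ G)) :
    Adm (cb B) (B.map (ev θ)) := adm_of_bound (norm_mop_map_le θ B)

/-- The algebraic version of `ctr`. -/
noncomputable def actr [DecidableEq ι] (c : ℝ) (B : Matrix κ ι (MonoidAlgebra ℂ G)) :
    Matrix ι ι (MonoidAlgebra ℂ G) := 1 - (c : ℂ) • (stM B * B)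

lemma map_actr_pow [DecidableEq ι] {M : TM.{v}} (θ : G →* unitary M.N) (c : ℝ)
    (B : Matrix κ ι (MonoidAlgebra ℂ G)) (n : ℕ) :
    (actr c B ^ n).map (ev θ) = ctr c (B.map (ev θ)) ^ n := by
  have h : (actr c B).map (ev θ) = ctr c (B.map (ev θ)) := by
    rw [ctr, ← map_stM, ← Matrix.map_mul, actr]
    ext i j : 2
    by_cases hij : i = j <;>
      simp only [Matrix.one_apply, hij, Matrix.map_apply, Matrix.sub_apply, Matrix.smul_apply,
        map_sub, map_smul, if_true, if_false, map_one, map_zero]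
  rw [← h]
  exact map_pow (ev θ).mapMatrix (actr c B) n

lemma nul_congr {M : TM.{v}} {M' : TM.{w}} {θ : G →* unitary M.N} {θ' : G →* unitary M'.N}
    (h : chr θ = chr θ') (B : Matrix κ ι (MonoidAlgebra ℂ G)) :
    nul (B.map (ev θ)) = nul (B.map (ev θ')) := by
  classical
  refine tendsto_nhds_unique (tendsto_nul (adm_map θ B))
    ((tendsto_nul (adm_map θ' B)).congr fun n => ?_)
  rw [← map_actr_pow, ← map_actr_pow, ttr_map, ttr_map, h]

lemma nul_usc {α : Type*} {l : Filter α} {M : α → TM.{v}} {M₀ : TM.{w}}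
    (θ : ∀ a, G →* unitary (M a).N) (θ₀ : G →* unitary M₀.N)
    (h : ∀ g, Tendsto (fun a => chr (θ a) g) l (𝓝 (chr θ₀ g)))
    (B : Matrix κ ι (MonoidAlgebra ℂ G)) {ε : ℝ} (hε : 0 < ε) :
    ∀ᶠ a in l, nul (B.map (ev (θ a))) < nul (B.map (ev θ₀)) + ε := by
  classical
  obtain ⟨n, hn⟩ := ((tendsto_nul (adm_map θ₀ B)).eventually
    (gt_mem_nhds (lt_add_of_pos_right _ hε))).exists
  rw [← map_actr_pow, ttr_map] at hn
  have h2 := (Complex.continuous_re.tendsto _).comp
    (tendsto_lin h (actr (cb B) B ^ (2 * n)).trace)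
  filter_upwards [h2.eventually (gt_mem_nhds hn)] with a ha
  refine lt_of_le_of_lt (nul_le_mom (c := cb B) n) ?_
  rwa [← map_actr_pow, ttr_map]

section regular

variable {Λ : Type v} [Group Λ]

/-- Composition with a permutation, as an operator on `L2`. -/
noncomputable def permOp (e : Λ ≃ Λ) : L2 Λ →L[ℂ] L2 Λ :=
  LinearMap.mkContinuous
    { toFun := fun ξ => ⟨fun h => ξ (e h),
        memℓp_gen (e.summable_iff.mpr ((lp.memℓp ξ).summable (by norm_num)))⟩
      map_add' := fun _ _ => rfl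
      map_smul' := fun _ _ => rfl } 1 (by
    intro ξ
    rw [one_mul, lp.norm_eq_tsum_rpow (by norm_num), lp.norm_eq_tsum_rpow (by norm_num)]
    exact le_of_eq (congrArg (· ^ _) (e.tsum_eq (fun h => ‖ξ h‖ ^ (2 : ℝ≥0∞).toReal))))

lemma permOp_apply (e : Λ ≃ Λ) (ξ : L2 Λ) (h : Λ) : permOp e ξ h = ξ (e h) := rfl

lemma star_permOp (e : Λ ≃ Λ) : star (permOp e) = permOp e.symm := by
  rw [ContinuousLinearMap.star_eq_adjoint]
  symm
  rw [ContinuousLinearMap.eq_adjoint_iff]
  intro x y
  rw [lp.inner_eq_tsum, lp.inner_eq_tsum, ← e.tsum_eq]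
  refine tsum_congr fun h => ?_
  simp [permOp_apply]

open Classical in
/-- The basis vectors of `L2`. -/
noncomputable def dl (g : Λ) : L2 Λ := lp.single 2 g (1 : ℂ)

open Classical in
lemma dl_apply (g h : Λ) : dl g h = if h = g then 1 else 0 := by
  simp [dl, lp.single_apply, Pi.single_apply]

lemma inner_dl (g : Λ) (ξ : L2 Λ) : ⟪dl g, ξ⟫_ℂ = ξ g := by
  classical
  rw [dl, lp.inner_single_left]; simp

lemma hasSum_trace {S T : L2 Λ →L[ℂ] L2 Λ}
    (hS : ∀ g : Λ, permOp (Equiv.mulLeft g) * S = S * permOp (Equiv.mulLeft g)) :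
    HasSum (fun h => S (dl 1) h⁻¹ * T (dl 1) h) ⟪dl (1 : Λ), S (T (dl 1))⟫_ℂ := by
  rw [← ContinuousLinearMap.adjoint_inner_left]
  refine (lp.hasSum_inner (𝕜 := ℂ) (ContinuousLinearMap.adjoint S (dl 1))
    (T (dl 1))).congr_fun ?_
  intro h
  have h1 : permOp (Equiv.mulLeft h⁻¹) (dl 1) = dl h := by
    ext k
    rw [permOp_apply, dl_apply, dl_apply]
    by_cases hk : k = h
    · simp [hk]
    · rw [if_neg hk]
      exact if_neg fun h' => hk (inv_mul_eq_one.1 h').symm
  have h2 : starRingEnd ℂ (ContinuousLinearMap.adjoint S (dl 1) h) = S (dl 1) h⁻¹ := by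
    rw [← inner_dl h, inner_conj_symm, ContinuousLinearMap.adjoint_inner_left, inner_dl, ← h1]
    have := congrArg (fun X : L2 Λ →L[ℂ] L2 Λ => X (dl 1) 1) (hS h⁻¹)
    simp only [mul_apply_eq_comp, permOp_apply] at this
    rw [← this]; simp
  rw [← h2]
  simp [mul_comm]

/-- The group von Neumann algebra with its trace. -/
noncomputable def reg (Λ : Type v) [Group Λ] : TM.{v} where
  H := L2 Λ
  U := Set.range fun g : Λ => permOp (Equiv.mulLeft g)
  hU := by
    rintro _ ⟨g, rfl⟩
    exact ⟨g⁻¹, by simp only [star_permOp]; rfl⟩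
  δ := dl 1
  hδ := by
    classical
    rw [dl, lp.norm_single (by norm_num)]; simp
  tr := by
    intro S T hS hT
    have h1 := hasSum_trace (T := T) fun g => hS _ ⟨g, rfl⟩
    have h2 := hasSum_trace (T := S) fun g => hT _ ⟨g, rfl⟩
    rw [← (Equiv.inv Λ).hasSum_iff] at h2
    refine h1.unique ?_
    convert h2 using 1
    funext h
    simp [mul_comm]

/-- Right translation as an element of the group von Neumann algebra. -/
noncomputable def rhoN (g : Λ) : (reg Λ).N :=
  ⟨permOp (Equiv.mulRight g), by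
    rw [mem_A]
    rintro _ ⟨h, rfl⟩
    ext1 ξ
    change permOp _ (permOp _ ξ) = permOp _ (permOp _ ξ)
    ext k
    simp [permOp_apply, mul_assoc]⟩

lemma rhoN_mul (g h : Λ) : rhoN (g * h) = rhoN g * rhoN h := by
  refine Subtype.ext ?_
  ext1 ξ
  change permOp _ ξ = permOp _ (permOp _ ξ)
  ext k
  simp [permOp_apply, mul_assoc]

lemma rhoN_one : rhoN (1 : Λ) = 1 := by
  refine Subtype.ext ?_
  ext1 ξ
  change permOp _ ξ = ξ
  ext k
  simp [permOp_apply]

lemma star_rhoN (g : Λ) : star (rhoN g) = rhoN g⁻¹ := by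
  refine Subtype.ext ?_
  change star (permOp _) = permOp _
  rw [star_permOp]; rfl

/-- The right regular model. -/
noncomputable def rho (Λ : Type v) [Group Λ] : Λ →* unitary (reg Λ).N where
  toFun g := ⟨rhoN g, by
    rw [Unitary.mem_iff, star_rhoN, ← rhoN_mul, ← rhoN_mul]; simp [rhoN_one]⟩
  map_one' := Subtype.ext rhoN_one
  map_mul' g h := Subtype.ext (rhoN_mul g h)

/-- The operator underlying an element of the group von Neumann algebra. -/
noncomputable def opOf : (reg Λ).N →ₐ[ℂ] (L2 Λ →L[ℂ] L2 Λ) where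
  toFun T := T.1
  map_one' := rfl
  map_mul' _ _ := rfl
  map_zero' := rfl
  map_add' _ _ := rfl
  commutes' _ := rfl

lemma norm_opOf (T : (reg Λ).N) : ‖opOf T‖ = ‖T‖ := rfl

lemma opOf_rho (g : Λ) (ξ : L2 Λ) (h : Λ) : opOf (rho Λ g : (reg Λ).N) ξ h = ξ (h * g) := rfl

lemma τ_reg (T : (reg Λ).N) : (reg Λ).τ T = opOf T (dl 1) 1 := inner_dl 1 _

open Classical in
lemma chr_rho_comp (π : G →* Λ) (g : G) :
    chr ((rho Λ).comp π) g = if π g = 1 then 1 else 0 := by
  rw [chr, τ_reg, MonoidHom.comp_apply, opOf_rho, dl_apply, one_mul]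

end regular

/-- The nullity of the image of `B` in the group von Neumann algebra of the target of `π`. -/
noncomputable def dd {Q : Type v} [Group Q] (π : G →* Q) (B : Matrix κ ι (MonoidAlgebra ℂ G)) : ℝ :=
  nul (B.map (ev ((rho Q).comp π)))

lemma dd_congr {Q : Type v} {Q' : Type w} [Group Q] [Group Q'] {π : G →* Q} {π' : G →* Q'}
    (h : ∀ g, π g = 1 ↔ π' g = 1) (B : Matrix κ ι (MonoidAlgebra ℂ G)) : dd π B = dd π' B := by
  refine nul_congr (funext fun g => ?_) B
  rw [chr_rho_comp, chr_rho_comp, h]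

lemma ev_comp {M : TM.{v}} {G' : Type w} [Group G'] (θ : G →* unitary M.N) (ψ : G' →* G)
    (x : MonoidAlgebra ℂ G') : ev (θ.comp ψ) x = ev θ (MonoidAlgebra.mapDomain ψ x) := by
  induction x using MonoidAlgebra.induction_linear with
  | zero => simp
  | add x y hx hy => rw [MonoidAlgebra.mapDomain_add, map_add, map_add, hx, hy]
  | single g a => simp [ev_single]

lemma dd_comp {Q : Type v} {G' : Type w} [Group Q] [Group G'] (π : G →* Q) (ψ : G' →* G)
    (B : Matrix κ ι (MonoidAlgebra ℂ G')) :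
    dd (π.comp ψ) B = dd π (B.map (MonoidAlgebra.mapDomain ψ)) := by
  rw [dd, dd, Matrix.map_map, ← MonoidHom.comp_assoc]
  congr 2
  exact funext (ev_comp _ ψ)

lemma dd_congr_support {Q : Type v} [Group Q] {π π' : G →* Q}
    (B : Matrix κ ι (MonoidAlgebra ℂ G)) (h : ∀ k i, ∀ g ∈ (B k i).coeff.support, π g = π' g) :
    dd π B = dd π' B := by
  rw [dd, dd]
  congr 1
  refine Matrix.ext fun k i => ?_
  simp only [Matrix.map_apply, ev_apply]
  exact Finset.sum_congr rfl fun g hg => by simp [h k i g hg]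

/-- Comparison of nullities for two homomorphisms with the same source. -/
def NLe {Q : Type v} {Q' : Type w} [Group Q] [Group Q'] (π : G →* Q) (π' : G →* Q') : Prop :=
  ∀ (ι κ : Type) [Fintype ι] [Fintype κ] (B : Matrix κ ι (MonoidAlgebra ℂ G)), dd π B ≤ dd π' B

lemma NLe.trans {Q Q' Q'' : Type*} [Group Q] [Group Q'] [Group Q''] {π : G →* Q} {π' : G →* Q'}
    {π'' : G →* Q''} (h : NLe π π') (h' : NLe π' π'') : NLe π π'' :=
  fun ι κ _ _ B => (h ι κ B).trans (h' ι κ B)

lemma NLe.comp {Q Q' G' : Type*} [Group Q] [Group Q'] [Group G'] {π : G →* Q} {π' : G →* Q'}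
    (h : NLe π π') (ψ : G' →* G) : NLe (π.comp ψ) (π'.comp ψ) := fun ι κ _ _ B => by
  rw [dd_comp, dd_comp]; exact h ι κ _

lemma NLe.of_iff {Q Q' : Type*} [Group Q] [Group Q'] {π : G →* Q} {π' : G →* Q'}
    (h : ∀ g, π g = 1 ↔ π' g = 1) : NLe π π' := fun _ _ _ _ B => (dd_congr h B).le

lemma chr_tendsto {Q : ℕ → Type v} [∀ i, Group (Q i)] {π : ∀ i, G →* Q i}
    (h : ∀ g, g ≠ 1 → ∀ᶠ i in atTop, π i g ≠ 1) (g : G) :
    Tendsto (fun i => chr ((rho (Q i)).comp (π i)) g) atTop
      (𝓝 (chr ((rho G).comp (MonoidHom.id G)) g)) := by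
  refine tendsto_const_nhds.congr' ?_
  by_cases hg : g = 1
  · exact Eventually.of_forall fun i => by simp only [chr_rho_comp]; simp [hg]
  · filter_upwards [h g hg] with i hi
    simp only [chr_rho_comp]; simp [hg, hi]

lemma dd_usc {Q : ℕ → Type v} [∀ i, Group (Q i)] {π : ∀ i, G →* Q i}
    (h : ∀ g, g ≠ 1 → ∀ᶠ i in atTop, π i g ≠ 1) (B : Matrix κ ι (MonoidAlgebra ℂ G))
    {ε : ℝ} (hε : 0 < ε) : ∀ᶠ i in atTop, dd (π i) B < dd (MonoidHom.id G) B + ε :=
  nul_usc (M := fun i => reg (Q i)) (fun i => (rho (Q i)).comp (π i)) _ (chr_tendsto h) B hε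

/-- The link with the definitions used in the statement. -/
lemma vnDim_kerRight {r s : ℕ} (A : Matrix (Fin r) (Fin s) (MonoidAlgebra ℂ G)) :
    vnDim (kerRight A) =
      dd (MonoidHom.id G) (A.map (MonoidAlgebra.mapDomain fun g : G => g⁻¹))ᵀ := by
  classical
  set C := ((A.map (MonoidAlgebra.mapDomain fun g : G => g⁻¹))ᵀ).map
    (ev ((rho G).comp (MonoidHom.id G))) with hC
  have h0 : ∀ (x : MonoidAlgebra ℂ G) (ξ : L2 G) (g : G),
      opOf (ev ((rho G).comp (MonoidHom.id G)) (MonoidAlgebra.mapDomain (fun g : G => g⁻¹) x)) ξ g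
        = ∑ h ∈ x.coeff.support, ξ (g * h⁻¹) * x.coeff h := by
    intro x ξ g
    conv_lhs => rw [← MonoidAlgebra.sum_coeff_single x, MonoidAlgebra.mapDomain_sum]
    simp only [Finsupp.sum, map_sum, MonoidAlgebra.mapDomain_single, ev_single]
    rw [_root_.sum_apply, lp.coeFn_sum, Finset.sum_apply]
    refine Finset.sum_congr rfl fun h _ => ?_
    rw [mul_comm]; rfl
  have h1 : kerRight A = kr C := by
    ext v
    have h2 : ∀ j g, (∑ i, opOf (C j i) (v i) : L2 G) g =
        ∑ i, ∑ h ∈ (A i j).coeff.support, v i (g * h⁻¹) * (A i j).coeff h := by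
      intro j g
      rw [lp.coeFn_sum, Finset.sum_apply]
      exact Finset.sum_congr rfl fun i _ => h0 _ _ _
    constructor
    · intro hv
      refine mem_kr.2 (PiLp.ext fun j => (mop_apply C v j).trans ?_)
      exact lp.ext (funext fun g => (h2 j g).trans (hv j g))
    · intro hv j g
      have h3 : (∑ i, opOf (C j i) (v i) : L2 G) = 0 :=
        (mop_apply C v j).symm.trans (congrArg (fun w : (reg G).Hs (Fin s) => w j) (mem_kr.1 hv))
      rw [← h2, h3]; rfl
  have h3 : (kerRight A).topologicalClosure = kr C := by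
    rw [h1]
    exact IsClosed.submodule_topologicalClosure_eq (ContinuousLinearMap.isClosed_ker (mop C))
  rw [dd, nul, ttr_eq_inner, Complex.re_sum, vnDim]
  refine Finset.sum_congr rfl fun i _ => ?_
  rw [mop_pk]
  simp only [h3]
  rfl

end Pool.Agent.MP_c6eade_gt

end

-- part MP_c6eade_gt.Loewner
section

/-!
The rank along a family of models whose generators move in a pencil: averages over different
sets of parameters agree up to a bounded error.
-/

namespace Pool.Agent.MP_c6eade_gt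

open Filter Topology Matrix TM Polynomial

universe u v

variable {G : Type u} [Group G] {M : TM.{v}} {P : Type}

/-- Values of the Lagrange basis for the nodes `t` at the points `s`. -/
noncomputable def lagM {m : ℕ} (s t : Fin m → ℂ) : Matrix (Fin m) (Fin m) ℂ :=
  Matrix.of fun i j => (Lagrange.basis Finset.univ t j).eval (s i)

lemma lagM_mul {m : ℕ} {s t : Fin m → ℂ} (hs : Function.Injective s) (ht : Function.Injective t) :
    lagM t s * lagM s t = 1 := by
  ext j k
  have h1 : (Lagrange.basis Finset.univ t k).degree < (Finset.univ : Finset (Fin m)).card := by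
    rw [Lagrange.degree_basis ht.injOn (Finset.mem_univ k), Nat.cast_lt]
    have : 0 < (Finset.univ : Finset (Fin m)).card := Finset.card_pos.2 ⟨k, Finset.mem_univ k⟩
    omega
  have h2 := congrArg (eval (t j)) (Lagrange.eq_interpolate hs.injOn h1)
  rw [Lagrange.interpolate_apply, eval_finsetSum] at h2
  simp only [eval_mul, eval_C] at h2
  simp only [lagM, Matrix.mul_apply, Matrix.of_apply]
  rw [Finset.sum_congr rfl fun i _ => mul_comm _ _, ← h2]
  by_cases h : j = k
  · subst h
    rw [Lagrange.eval_basis_self ht.injOn (Finset.mem_univ j), Matrix.one_apply_eq]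
  · rw [Lagrange.eval_basis_of_ne (Ne.symm h) (Finset.mem_univ j), Matrix.one_apply_ne h]

lemma lagM_rank_one {m : ℕ} {s t : Fin m → ℂ} (h : ∀ i j, s i ≠ t j) (i j : Fin m) :
    lagM s t i j * (s i - t j) =
      (Lagrange.nodal Finset.univ t).eval (s i) * Lagrange.nodalWeight Finset.univ t j := by
  rw [lagM, Matrix.of_apply, Lagrange.eval_basis_not_at_node (Finset.mem_univ j) (h i j)]
  have := sub_ne_zero_of_ne (h i j)
  field_simp

/-- The defect of the scalar matrix from intertwining two diagonal models. -/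
noncomputable def dfc (θ : P → G →* unitary M.N) (p : P → ℂ) {m : ℕ} (s t : Fin m → P)
    (x : MonoidAlgebra ℂ G) : Matrix (Fin m) (Fin m) M.N :=
  Matrix.of fun i j => lagM (p ∘ s) (p ∘ t) i j • (ev (θ (s i)) x - ev (θ (t j)) x)

/-- The defect has bounded rank. -/
def Bd (θ : P → G →* unitary M.N) (p : P → ℂ) (x : MonoidAlgebra ℂ G) : Prop :=
  ∃ L : ℝ, ∀ (m : ℕ) (s t : Fin m → P), (∀ i j, p (s i) ≠ p (t j)) → rk (dfc θ p s t x) ≤ L

variable {θ : P → G →* unitary M.N} {p : P → ℂ}

lemma Bd.add {x y : MonoidAlgebra ℂ G} (hx : Bd θ p x) (hy : Bd θ p y) : Bd θ p (x + y) := by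
  obtain ⟨L, hL⟩ := hx
  obtain ⟨L', hL'⟩ := hy
  refine ⟨L + L', fun m s t h => ?_⟩
  have : dfc θ p s t (x + y) = dfc θ p s t x + dfc θ p s t y := by
    refine Matrix.ext fun i j => ?_
    simp only [dfc, Matrix.of_apply, Matrix.add_apply, map_add]
    module
  rw [this]
  exact (rk_add_le _ _).trans (add_le_add (hL m s t h) (hL' m s t h))

lemma Bd.smul {x : MonoidAlgebra ℂ G} (hx : Bd θ p x) (c : ℂ) : Bd θ p (c • x) := by
  obtain ⟨L, hL⟩ := hx
  refine ⟨L, fun m s t h => ?_⟩
  have : dfc θ p s t (c • x) = c • dfc θ p s t x := by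
    refine Matrix.ext fun i j => ?_
    simp only [dfc, Matrix.of_apply, Matrix.smul_apply, map_smul]
    module
  rw [this]
  exact (rk_smul_le _ _).trans (hL m s t h)

lemma dfc_mul {m : ℕ} (s t : Fin m → P) (x y : MonoidAlgebra ℂ G) :
    dfc θ p s t (x * y) = diagonal (fun i => ev (θ (s i)) x) * dfc θ p s t y +
      dfc θ p s t x * diagonal fun j => ev (θ (t j)) y := by
  refine Matrix.ext fun i j => ?_
  simp only [dfc, Matrix.of_apply, Matrix.add_apply, map_mul, diagonal_mul, mul_diagonal,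
    mul_smul_comm, smul_mul_assoc, mul_sub, sub_mul]
  module

lemma Bd.mul {x y : MonoidAlgebra ℂ G} (hx : Bd θ p x) (hy : Bd θ p y) : Bd θ p (x * y) := by
  obtain ⟨L, hL⟩ := hx
  obtain ⟨L', hL'⟩ := hy
  refine ⟨L' + L, fun m s t h => ?_⟩
  rw [dfc_mul]
  exact (rk_add_le _ _).trans (add_le_add ((rk_mul_le_right _ _).trans (hL' m s t h))
    ((rk_mul_le_left _ _).trans (hL m s t h)))

lemma dfc_one {m : ℕ} (s t : Fin m → P) : dfc θ p s t 1 = 0 := by
  refine Matrix.ext fun i j => ?_
  simp [dfc]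

lemma Bd.one : Bd θ p 1 := ⟨0, fun m s t _ => by rw [dfc_one]; exact rk_zero_le⟩

lemma Bd.inv {g : G} (h : Bd θ p (MonoidAlgebra.single g 1)) :
    Bd θ p (MonoidAlgebra.single g⁻¹ 1) := by
  obtain ⟨L, hL⟩ := h
  refine ⟨L, fun m s t h => ?_⟩
  have : dfc θ p s t (MonoidAlgebra.single g⁻¹ 1) =
      diagonal (fun i => -(θ (s i) g⁻¹ : M.N)) * dfc θ p s t (MonoidAlgebra.single g 1) *
        diagonal fun j => (θ (t j) g⁻¹ : M.N) := by
    refine Matrix.ext fun i j => ?_
    have h1 : (θ (s i) g⁻¹ : M.N) * (θ (s i) g : M.N) = 1 := by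
      rw [← Submonoid.coe_mul, ← map_mul]; simp
    have h2 : (θ (t j) g : M.N) * (θ (t j) g⁻¹ : M.N) = 1 := by
      rw [← Submonoid.coe_mul, ← map_mul]; simp
    simp only [dfc, Matrix.of_apply, diagonal_mul, mul_diagonal, ev_single, one_smul,
      mul_smul_comm, smul_mul_assoc, mul_sub, sub_mul, neg_mul, h1, mul_assoc, h2, one_mul,
      mul_one]
    module
  rw [this]
  exact ((rk_mul_le_left _ _).trans (rk_mul_le_right _ _)).trans (hL m s t h)

lemma Bd.of_pencil {g : G} {a b : P → M.N}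
    (h : ∀ s t, (θ s g : M.N) - θ t g = (p s - p t) • (a s * b t)) :
    Bd θ p (MonoidAlgebra.single g 1) := by
  refine ⟨1, fun m s t hst => ?_⟩
  have : dfc θ p s t (MonoidAlgebra.single g 1) =
      (Matrix.of fun i (_ : Unit) =>
        (Lagrange.nodal Finset.univ (p ∘ t)).eval (p (s i)) • a (s i)) *
      (Matrix.of fun (_ : Unit) j => Lagrange.nodalWeight Finset.univ (p ∘ t) j • b (t j)) := by
    refine Matrix.ext fun i j => ?_
    have h1 := lagM_rank_one (s := p ∘ s) (t := p ∘ t) hst i j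
    simp only [Function.comp_apply] at h1
    simp only [dfc, Matrix.of_apply, ev_single, one_smul, h, smul_smul, h1, Matrix.mul_apply,
      Finset.univ_unique, Finset.sum_singleton, mul_smul_comm, smul_mul_assoc]
    rw [mul_comm (Lagrange.nodalWeight _ _ _)]
  rw [this]
  exact (rk_mul_le_left _ _).trans ((rk_le_card _).trans (by simp))

lemma bd_all {S : Set G} (hS : Subgroup.closure S = ⊤)
    (h : ∀ g ∈ S, ∃ a b : P → M.N, ∀ s t, (θ s g : M.N) - θ t g = (p s - p t) • (a s * b t))
    (x : MonoidAlgebra ℂ G) : Bd θ p x := by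
  have h1 : ∀ g : G, Bd θ p (MonoidAlgebra.single g 1) := by
    intro g
    have hg : g ∈ Subgroup.closure S := hS ▸ Subgroup.mem_top g
    induction hg using Subgroup.closure_induction with
    | mem g hg => obtain ⟨a, b, hab⟩ := h g hg; exact Bd.of_pencil hab
    | one => exact Bd.one
    | mul g g' _ _ hg hg' => simpa [MonoidAlgebra.single_mul_single] using hg.mul hg'
    | inv g _ hg => exact hg.inv
  induction x using MonoidAlgebra.induction_linear with
  | zero => simpa using (Bd.one (θ := θ) (p := p)).smul 0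
  | add x y hx hy => exact hx.add hy
  | single g a => simpa using (h1 g).smul a

variable {ι κ : Type} [Fintype ι] [Fintype κ]

/-- A scalar matrix acting on the second index. -/
noncomputable def amp (M : TM.{v}) (ι : Type) [DecidableEq ι] {m : ℕ}
    (S : Matrix (Fin m) (Fin m) ℂ) : Matrix (ι × Fin m) (ι × Fin m) M.N :=
  Matrix.of fun a b => if a.1 = b.1 then S a.2 b.2 • (1 : M.N) else 0

lemma amp_mul_apply [DecidableEq ι] {m : ℕ} {μ : Type} (S : Matrix (Fin m) (Fin m) ℂ)
    (X : Matrix (ι × Fin m) μ M.N) (k : ι) (i : Fin m) (b : μ) :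
    (amp M ι S * X) (k, i) b = ∑ j, S i j • X (k, j) b := by
  rw [Matrix.mul_apply, Fintype.sum_prod_type, Finset.sum_eq_single k]
  · simp [amp]
  · intro l _ hl; simp [amp, hl.symm]
  · simp

lemma mul_amp_apply [DecidableEq ι] {m : ℕ} {μ : Type} (S : Matrix (Fin m) (Fin m) ℂ)
    (X : Matrix μ (ι × Fin m) M.N) (a : μ) (l : ι) (j : Fin m) :
    (X * amp M ι S) a (l, j) = ∑ i, S i j • X a (l, i) := by
  rw [Matrix.mul_apply, Fintype.sum_prod_type, Finset.sum_eq_single l]
  · simp [amp]
  · intro k _ hk; simp [amp, hk]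
  · simp

lemma amp_mul [DecidableEq ι] {m : ℕ} {S S' : Matrix (Fin m) (Fin m) ℂ} (h : S * S' = 1) :
    amp M ι S * amp M ι S' = 1 := by
  refine Matrix.ext fun ⟨k, i⟩ ⟨l, j⟩ => ?_
  have h1 := congrFun (congrFun h i) j
  rw [Matrix.mul_apply] at h1
  rw [amp_mul_apply]
  by_cases hkl : k = l
  · simp only [amp, Matrix.of_apply, hkl, if_true, smul_smul, ← Finset.sum_smul, h1,
      Matrix.one_apply, Prod.mk.injEq, true_and]
    split_ifs <;> simp
  · simp [amp, hkl, Matrix.one_apply]

theorem loewner (hb : ∀ x, Bd θ p x) (B : Matrix κ ι (MonoidAlgebra ℂ G)) :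
    ∃ L : ℝ, ∀ (m : ℕ) (s t : Fin m → P), Function.Injective (p ∘ s) →
      Function.Injective (p ∘ t) → (∀ i j, p (s i) ≠ p (t j)) →
      ∑ j, rk (B.map (ev (θ (t j)))) ≤ ∑ i, rk (B.map (ev (θ (s i)))) + L := by
  classical
  choose L hL using hb
  refine ⟨∑ q : κ × ι, L (B q.1 q.2), fun m s t hs ht hst => ?_⟩
  rw [← rk_blockDiagonal, ← rk_blockDiagonal]
  set U := blockDiagonal fun i => B.map (ev (θ (s i))) with hU
  set U' := blockDiagonal fun j => B.map (ev (θ (t j))) with hU'
  set S := lagM (p ∘ s) (p ∘ t) with hS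
  set E : κ × ι → Matrix (κ × Fin m) (ι × Fin m) M.N := fun q =>
    (Matrix.of fun (a : κ × Fin m) (i : Fin m) => if a = (q.1, i) then (1 : M.N) else 0) *
      (dfc θ p s t (B q.1 q.2) *
        Matrix.of fun (j : Fin m) (b : ι × Fin m) => if b = (q.2, j) then (1 : M.N) else 0)
    with hE
  have h1 : amp M κ S * U' = U * amp M ι S + (-1 : ℂ) • ∑ q, E q := by
    refine Matrix.ext fun a b => ?_
    obtain ⟨k, i⟩ := a
    obtain ⟨l, j⟩ := b
    have e1 : (∑ q, E q) (k, i) (l, j) = dfc θ p s t (B k l) i j := by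
      rw [Matrix.sum_apply, Finset.sum_eq_single (k, l)]
      · simp [hE, Matrix.mul_apply]
      · rintro ⟨k', l'⟩ _ hq
        by_cases hk : k = k'
        · have hl : l ≠ l' := fun hl => hq (by rw [hk, hl])
          simp [hE, Matrix.mul_apply, hl]
        · simp [hE, Matrix.mul_apply, hk]
      · simp
    rw [Matrix.add_apply, Matrix.smul_apply, e1, amp_mul_apply, mul_amp_apply,
      Finset.sum_eq_single j, Finset.sum_eq_single i]
    · simp only [hU, hU', blockDiagonal_apply, if_true, Matrix.map_apply, dfc, Matrix.of_apply,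
        ← hS]
      module
    · intro i' _ hi; simp [hU, blockDiagonal_apply, hi.symm]
    · simp
    · intro j' _ hj; simp [hU', blockDiagonal_apply, hj]
    · simp
  have h2 : U' = amp M κ (lagM (p ∘ t) (p ∘ s)) * (amp M κ S * U') := by
    rw [← Matrix.mul_assoc, amp_mul (lagM_mul hs ht), Matrix.one_mul]
  rw [h2, h1]
  refine (rk_mul_le_right _ _).trans ((rk_add_le _ _).trans (add_le_add (rk_mul_le_left _ _) ?_))
  refine (rk_smul_le _ _).trans ((rk_sum_le _).trans (Finset.sum_le_sum fun q _ => ?_))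
  exact ((rk_mul_le_right _ _).trans (rk_mul_le_left _ _)).trans (hL _ m s t hst)

end Pool.Agent.MP_c6eade_gt

end

-- part MP_c6eade_gt.Wreath
section

/-!
The pencil `z (z + s) / (1 + s z)` of unitaries, and the comparison of nullities for the
projection of a semidirect product `F(Y) ⋊ Q` onto `Q`.
-/

namespace Pool.Agent.MP_c6eade_gt

open Filter Topology Matrix TM SemidirectProduct

universe u v

section pencil

variable {M : TM.{v}}

/-- The denominator. -/
noncomputable def wz (s : ℝ) (z : M.N) : M.N := 1 + (s : ℂ) • z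

/-- The deformed unitary. -/
noncomputable def uz (s : ℝ) (z : M.N) : M.N := z * (z + (s : ℂ) • 1) * Ring.inverse (wz s z)

lemma norm_smul_unitary_le (s : ℝ) {z : M.N} (hz : z ∈ unitary M.N) : ‖(s : ℂ) • z‖ ≤ |s| := by
  rw [norm_smul, Complex.norm_real, Real.norm_eq_abs]
  exact mul_le_of_le_one_right (abs_nonneg s) (norm_model_le ⟨z, hz⟩)

lemma isUnit_wz_of_lt {s : ℝ} (hs : |s| < 1) {z : M.N} (hz : z ∈ unitary M.N) :
    IsUnit (wz s z) := by
  have h : ‖-((s : ℂ) • z)‖ < 1 := by
    rw [norm_neg]; exact (norm_smul_unitary_le s hz).trans_lt hs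
  have := (Units.oneSub _ h).isUnit
  simpa [wz] using this

lemma isUnit_wz {s : ℝ} (hs : |s| ≠ 1) {z : M.N} (hz : z ∈ unitary M.N) : IsUnit (wz s z) := by
  rcases lt_or_gt_of_ne hs with h | h
  · exact isUnit_wz_of_lt h hz
  · have h0 : s ≠ 0 := by rintro rfl; norm_num at h
    have h0' : (s : ℂ) ≠ 0 := by exact_mod_cast h0
    have h1 : |s⁻¹| < 1 := by rw [abs_inv]; exact inv_lt_one_of_one_lt₀ h
    have h2 := isUnit_wz_of_lt h1 (Unitary.star_mem hz)
    have h3 : IsUnit ((s : ℂ) • z) := by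
      refine ⟨⟨(s : ℂ) • z, (s : ℂ)⁻¹ • star z, ?_, ?_⟩, rfl⟩ <;>
        simp [smul_smul, h0', hz.1, hz.2, -Complex.coe_smul]
    convert h3.mul h2 using 1
    simp [wz, mul_add, smul_smul, h0', hz.2, add_comm, -Complex.coe_smul]

variable {s t : ℝ} {z : M.N}

lemma uz_mul_wz (h : IsUnit (wz s z)) : uz s z * wz s z = z * (z + (s : ℂ) • 1) := by
  rw [uz, mul_assoc, Ring.inverse_mul_cancel _ h, mul_one]

lemma uz_intertwine {z' a : M.N} (h : IsUnit (wz s z)) (h' : IsUnit (wz s z'))
    (ha : a * z = z' * a) : a * uz s z = uz s z' * a := by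
  refine h.mul_right_cancel ?_
  have h1 : a * wz s z = wz s z' * a := by simp [wz, mul_add, add_mul, ha]
  rw [mul_assoc, uz_mul_wz h, mul_assoc, h1, ← mul_assoc (uz s z'), uz_mul_wz h', ← mul_assoc, ha,
    mul_assoc, mul_assoc]
  simp [mul_add, add_mul, ha]

lemma star_wz : star (wz s z) = wz s (star z) := by simp [wz]

lemma star_uz_mul (h : IsUnit (wz s z)) :
    star (uz s z) * wz s (star z) = star z * (star z + (s : ℂ) • 1) := by
  have h1 : wz s z * uz s z = uz s z * wz s z :=
    uz_intertwine h h (by simp [wz, mul_add, add_mul])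
  rw [← star_wz, ← star_mul, h1, uz_mul_wz h]
  simp [mul_add, add_mul]

lemma star_uz (hs : |s| ≠ 1) (hz : z ∈ unitary M.N) : star (uz s z) = uz s (star z) := by
  have h' := isUnit_wz hs (Unitary.star_mem hz)
  refine h'.mul_right_cancel ?_
  rw [star_uz_mul (isUnit_wz hs hz), uz_mul_wz h']

lemma star_uz_mul_uz (hs : |s| ≠ 1) (hz : z ∈ unitary M.N) : star (uz s z) * uz s z = 1 := by
  have h := isUnit_wz hs hz
  refine h.mul_right_cancel ?_
  have h1 : z * (z + (s : ℂ) • 1) = wz s (star z) * (z * z) := by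
    simp [wz, mul_add, add_mul, ← mul_assoc, hz.1]
  rw [mul_assoc, uz_mul_wz h, h1, ← mul_assoc, star_uz_mul h]
  have h2 : star z * (star z * (z * z)) = 1 := by
    rw [← mul_assoc (star z) z z, hz.1, one_mul, hz.1]
  have h3 : star z * (z * z) = z := by rw [← mul_assoc, hz.1, one_mul]
  simp [wz, mul_add, add_mul, mul_assoc, h2, h3, hz.1]

lemma uz_mem (hs : |s| ≠ 1) (hz : z ∈ unitary M.N) : uz s z ∈ unitary M.N := by
  refine ⟨star_uz_mul_uz hs hz, ?_⟩
  have := star_uz_mul_uz hs (Unitary.star_mem hz)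
  rwa [← star_uz hs hz, star_star] at this

lemma uz_sub_uz (h : IsUnit (wz s z)) (h' : IsUnit (wz t z)) :
    uz s z - uz t z = ((s : ℂ) - t) •
      ((z * (1 - z * z) * Ring.inverse (wz s z)) * Ring.inverse (wz t z)) := by
  refine h'.mul_right_cancel (h.mul_right_cancel ?_)
  have h1 : wz t z * wz s z = wz s z * wz t z := by
    simp only [wz, mul_add, add_mul, one_mul, mul_one, smul_mul_assoc, mul_smul_comm]
    module
  rw [sub_mul, sub_mul, uz_mul_wz h', mul_assoc (uz s z), h1, ← mul_assoc, uz_mul_wz h,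
    smul_mul_assoc, smul_mul_assoc, mul_assoc _ (Ring.inverse _) (wz t z),
    Ring.inverse_mul_cancel _ h', mul_one, mul_assoc _ (Ring.inverse _) (wz s z),
    Ring.inverse_mul_cancel _ h, mul_one]
  simp only [wz, mul_add, add_mul, mul_sub, one_mul, mul_one, smul_mul_assoc, mul_smul_comm,
    mul_assoc]
  module

lemma norm_uz_sub_one (hs : 1 < s) (hz : z ∈ unitary M.N) : ‖uz s z - 1‖ ≤ 2 / (s - 1) := by
  have habs : |s| = s := abs_of_pos (by linarith)
  have h := isUnit_wz (s := s) (by rw [habs]; exact hs.ne') hz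
  have h1 : (uz s z - 1) * wz s z = z * z - 1 := by
    rw [sub_mul, uz_mul_wz h]
    simp [wz, mul_add]
  have h2 : (s : ℂ) • (uz s z - 1) = (z * z - 1 - (uz s z - 1)) * star z := by
    rw [← h1]
    simp [wz, mul_add, mul_assoc, hz.2]
  have hz1 : ‖z‖ ≤ 1 := norm_model_le ⟨z, hz⟩
  have h3 : ‖z * z - 1‖ ≤ 2 := by
    refine (norm_sub_le _ _).trans ?_
    have a1 := norm_mul_le z z
    have a2 : ‖(1 : M.N)‖ ≤ 1 := norm_model_le 1
    nlinarith [norm_nonneg z]
  have h4 := congrArg norm h2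
  rw [norm_smul, Complex.norm_real, Real.norm_eq_abs, habs] at h4
  have h5 := norm_mul_le (z * z - 1 - (uz s z - 1)) (star z)
  rw [norm_star] at h5
  have h6 := norm_sub_le (z * z - 1) (uz s z - 1)
  have h7 := mul_le_of_le_one_right (norm_nonneg (z * z - 1 - (uz s z - 1))) hz1
  rw [le_div_iff₀ (by linarith)]
  linarith

end pencil

section support

variable {Λ : Type v} [Group Λ]

/-- Vectors supported in a set. -/
def Sup (W : Set Λ) : Submodule ℂ (L2 Λ) where
  carrier := {ξ | ∀ g ∉ W, ξ g = 0}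
  zero_mem' := fun _ _ => rfl
  add_mem' := fun {a b} ha hb g hg => by
    rw [lp.coeFn_add, Pi.add_apply, ha g hg, hb g hg, add_zero]
  smul_mem' := fun c a ha g hg => by
    rw [lp.coeFn_smul, Pi.smul_apply, ha g hg, smul_zero]

lemma rho_mem_Sup {W W' : Set Λ} {x : Λ} (h : ∀ g, g * x ∈ W → g ∈ W') {ξ : L2 Λ}
    (hξ : ξ ∈ Sup W) : opOf (rho Λ x : (reg Λ).N) ξ ∈ Sup W' :=
  fun g hg => hξ _ fun h' => hg (h g h')

lemma uz_mem_Sup {W W' : Set Λ} {x : Λ} (hW : W' ⊆ W) (h : ∀ g, g * x ∈ W → g ∈ W')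
    {s : ℝ} (hs : |s| < 1) {ξ : L2 Λ} (hξ : ξ ∈ Sup W) :
    opOf (uz s (rho Λ x : (reg Λ).N)) ξ ∈ Sup W' := by
  set z : (reg Λ).N := (rho Λ x).1 with hz
  have hzu : z ∈ unitary (reg Λ).N := (rho Λ x).2
  have hu := isUnit_wz_of_lt hs hzu
  have hzW : ∀ η ∈ Sup W, opOf z η ∈ Sup W := fun η hη => rho_mem_Sup (fun g hg => hW (h g hg)) hη
  set η := opOf (Ring.inverse (wz s z)) ξ with hη
  set T := opOf (-((s : ℂ) • z)) with hT
  have hTW : ∀ ζ ∈ Sup W, T ζ ∈ Sup W := fun ζ hζ => by
    rw [hT, map_neg, map_smul]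
    exact (Sup W).neg_mem ((Sup W).smul_mem _ (hzW ζ hζ))
  have h1 : η - T η = ξ := by
    have h2 : opOf (wz s z * Ring.inverse (wz s z)) ξ = ξ := by
      rw [Ring.mul_inverse_cancel _ hu, map_one]; rfl
    rw [← h2, map_mul, hT, wz, map_add, map_one, map_neg]
    simp [hη, wz]
  have h2 : ∀ n : ℕ, η - (T ^ n) η ∈ Sup W := by
    intro n
    induction n with
    | zero => simp
    | succ n ih =>
      have : η - (T ^ (n + 1)) η = ξ + T (η - (T ^ n) η) := by
        rw [← h1, pow_succ', map_sub]; simp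
      rw [this]
      exact (Sup W).add_mem hξ (hTW _ ih)
  have hT1 : ‖T‖ < 1 := by
    rw [hT, norm_opOf, norm_neg]; exact (norm_smul_unitary_le s hzu).trans_lt hs
  have h3 : η ∈ Sup W := by
    intro g hg
    have h4 : ∀ n : ℕ, η g = lp.evalCLM ℂ (fun _ : Λ => ℂ) 2 g ((T ^ n) η) := fun n => by
      have := h2 n g hg
      rw [lp.coeFn_sub, Pi.sub_apply, sub_eq_zero] at this
      exact this
    have h5 : Tendsto (fun n : ℕ => lp.evalCLM ℂ (fun _ : Λ => ℂ) 2 g ((T ^ n) η)) atTop (𝓝 0) := by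
      have h6 := tendsto_pow_atTop_nhds_zero_of_norm_lt_one hT1
      have h7 : Continuous fun S : L2 Λ →L[ℂ] L2 Λ => lp.evalCLM ℂ (fun _ : Λ => ℂ) 2 g (S η) := by
        fun_prop
      have h8 := (h7.tendsto 0).comp h6
      rwa [_root_.zero_apply, map_zero] at h8
    simp only [← h4] at h5
    exact tendsto_nhds_unique tendsto_const_nhds h5
  rw [uz, map_mul, map_mul]
  refine rho_mem_Sup h ?_
  change opOf (z + (s : ℂ) • 1) η ∈ Sup W
  rw [map_add, map_smul, map_one]
  exact (Sup W).add_mem (hzW η h3) ((Sup W).smul_mem _ h3)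

end support

section wreath

variable {Y Q : Type u} [Group Q] {α : Q →* MulAut (FreeGroup Y)}

/-- Admissible parameters. -/
abbrev Par : Type := {s : ℝ // |s| ≠ 1}

/-- The deformed generators. -/
noncomputable def ug (α : Q →* MulAut (FreeGroup Y)) (s : Par) (y : Y) :
    unitary (reg (FreeGroup Y ⋊[α] Q)).N :=
  ⟨uz s (rho _ (inl (FreeGroup.of y) : FreeGroup Y ⋊[α] Q) : (reg (FreeGroup Y ⋊[α] Q)).N),
    uz_mem s.2 (rho _ _).2⟩

/-- The deformed model. -/
noncomputable def th (hα : ∀ q y, ∃ y', α q (FreeGroup.of y) = FreeGroup.of y') (s : Par) :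
    FreeGroup Y ⋊[α] Q →* unitary (reg (FreeGroup Y ⋊[α] Q)).N :=
  SemidirectProduct.lift (FreeGroup.lift (ug α s)) ((rho _).comp inr) (by
    intro q
    ext1 y
    obtain ⟨y', hy⟩ := hα q y
    simp only [MonoidHom.comp_apply, MulEquiv.coe_toMonoidHom, hy, FreeGroup.lift_apply_of,
      MulAut.conj_apply]
    rw [eq_mul_inv_iff_mul_eq]
    refine Subtype.ext (uz_intertwine (isUnit_wz s.2 (rho _ _).2) (isUnit_wz s.2 (rho _ _).2)
      ?_).symm
    rw [← Submonoid.coe_mul, ← Submonoid.coe_mul, ← map_mul, ← map_mul, ← hy, inl_aut]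
    simp)

variable (hα : ∀ q y, ∃ y', α q (FreeGroup.of y) = FreeGroup.of y')

lemma closure_gens : Subgroup.closure (Set.range (fun y => (inl (FreeGroup.of y) :
    FreeGroup Y ⋊[α] Q)) ∪ Set.range inr) = ⊤ := by
  rw [eq_top_iff]
  intro g _
  rw [← inl_left_mul_inr_right g]
  refine mul_mem ?_ (Subgroup.subset_closure (Or.inr ⟨_, rfl⟩))
  induction g.left using FreeGroup.induction_on with
  | C1 => simp
  | of y => exact Subgroup.subset_closure (Or.inl ⟨_, rfl⟩)
  | inv_of y h => rw [map_inv]; exact inv_mem h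
  | mul x y hx hy => rw [map_mul]; exact mul_mem hx hy

lemma th_bd (x : MonoidAlgebra ℂ (FreeGroup Y ⋊[α] Q)) :
    Bd (th hα) (fun s : Par => ((s : ℝ) : ℂ)) x := by
  refine bd_all closure_gens ?_ x
  rintro _ (⟨y, rfl⟩ | ⟨q, rfl⟩)
  · set z := (rho _ (inl (FreeGroup.of y) : FreeGroup Y ⋊[α] Q)).1
    refine ⟨fun s => z * (1 - z * z) * Ring.inverse (wz s z), fun t => Ring.inverse (wz t z),
      fun s t => ?_⟩
    simp only [th, lift_inl, FreeGroup.lift_apply_of]
    exact uz_sub_uz (isUnit_wz s.2 (rho _ _).2) (isUnit_wz t.2 (rho _ _).2)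
  · exact ⟨0, 0, fun s t => by simp [th]⟩

lemma th_sup {s : Par} (hs : |(s : ℝ)| < 1) (q : Q) (L : List (Y × Bool))
    (hL : FreeGroup.IsReduced L) :
    opOf (th hα s (inl (FreeGroup.mk L) * inr q) : (reg (FreeGroup Y ⋊[α] Q)).N) (dl 1) ∈
      Sup {g | ∃ L', FreeGroup.IsReduced L' ∧ L'.head? = L.head? ∧
        g⁻¹ = inl (FreeGroup.mk L') * inr q} := by
  induction L with
  | nil =>
    rw [← FreeGroup.one_eq_mk, map_one, one_mul, th, lift_inr, MonoidHom.comp_apply]
    refine rho_mem_Sup (W := {1}) (fun g hg => ?_) ?_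
    · refine ⟨[], by simp, rfl, ?_⟩
      rw [← FreeGroup.one_eq_mk, map_one, one_mul]
      exact inv_eq_of_mul_eq_one_right hg
    · intro g hg
      rw [dl_apply]
      exact if_neg hg
  | cons x L ih =>
    have hL' : FreeGroup.IsReduced L := List.IsChain.tail hL
    have h1 : (th hα s (inl (FreeGroup.mk [x])) : (reg (FreeGroup Y ⋊[α] Q)).N) =
        uz s (rho _ (inl (FreeGroup.mk [x]) : FreeGroup Y ⋊[α] Q) : (reg _).N) := by
      obtain ⟨y, b⟩ := x
      cases b
      · have : FreeGroup.mk [(y, false)] = (FreeGroup.of y)⁻¹ := rfl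
        rw [this, map_inv, ← star_model, ← star_model, ← star_uz s.2 (rho _ _).2]
        simp [th, ug]
      · have : FreeGroup.mk [(y, true)] = FreeGroup.of y := rfl
        rw [this]
        simp [th, ug]
    have h2 : FreeGroup.mk (x :: L) = FreeGroup.mk [x] * FreeGroup.mk L := rfl
    rw [h2, map_mul inl, mul_assoc, map_mul, Submonoid.coe_mul, map_mul, h1]
    refine uz_mem_Sup (W := {g | ∃ L', FreeGroup.IsReduced (x :: L') ∧
        g⁻¹ = inl (FreeGroup.mk L') * inr q}) ?_ ?_ hs ?_
    · rintro g ⟨L', k1, k2, k3⟩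
      refine ⟨L', ?_, k3⟩
      obtain _ | ⟨x', L'⟩ := L'
      · simp
      · obtain rfl : x' = x := by simpa using k2
        exact FreeGroup.isReduced_cons_cons.2 ⟨fun _ => rfl, k1⟩
    · rintro g ⟨L', h1, h2⟩
      refine ⟨x :: L', h1, rfl, ?_⟩
      have h3 : FreeGroup.mk (x :: L') = FreeGroup.mk [x] * FreeGroup.mk L' := rfl
      rw [h3, map_mul, mul_assoc, ← h2]
      simp
    · intro g hg
      refine ih hL' g ?_
      rintro ⟨L', h1, h2, h3⟩
      refine hg ⟨L', ?_, h3⟩
      obtain _ | ⟨x', L'⟩ := L'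
      · simp
      · obtain _ | ⟨x'', L⟩ := L
        · simp at h2
        · obtain rfl : x' = x'' := by simpa using h2
          exact FreeGroup.isReduced_cons_cons.2 ⟨(FreeGroup.isReduced_cons_cons.1 hL).1, h1⟩

lemma chr_th {s : Par} (hs : |(s : ℝ)| < 1) :
    chr (th hα s) = chr ((rho _).comp (MonoidHom.id (FreeGroup Y ⋊[α] Q))) := by
  classical
  funext g
  by_cases hg : g.left = 1
  · have : g = inr g.right := by rw [← inl_left_mul_inr_right g, hg]; simp
    rw [this, chr, chr, th, lift_inr]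
    rfl
  · rw [chr_rho_comp, if_neg (by rintro rfl; exact hg rfl), chr, τ_reg,
      ← inl_left_mul_inr_right g, ← FreeGroup.mk_toWord (x := g.left)]
    refine th_sup hα hs _ _ FreeGroup.isReduced_toWord 1 ?_
    rintro ⟨L', h1, h2, h3⟩
    have h4 : FreeGroup.mk L' = 1 := by simpa using (congrArg SemidirectProduct.left h3).symm
    have h5 : L' = [] := by
      rw [← h1.reduce_eq, ← FreeGroup.toWord_mk, h4, FreeGroup.toWord_one]
    rw [h5, eq_comm, List.head?_nil, List.head?_eq_none_iff, FreeGroup.toWord_eq_nil_iff] at h2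
    exact hg h2

/-- Large parameters. -/
def big (n : ℕ) : Par := ⟨n + 2, by
  have : (0 : ℝ) ≤ n := n.cast_nonneg
  rw [abs_of_pos (by linarith)]; linarith⟩

lemma tendsto_th (g : FreeGroup Y ⋊[α] Q) :
    Tendsto (fun n => (th hα (big n) g : (reg (FreeGroup Y ⋊[α] Q)).N)) atTop
      (𝓝 (((rho (FreeGroup Y ⋊[α] Q)).comp (inr.comp rightHom)) g).1) := by
  have hg : g ∈ Subgroup.closure _ := closure_gens (α := α) ▸ Subgroup.mem_top g
  induction hg using Subgroup.closure_induction with
  | mem g hg =>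
    obtain ⟨y, rfl⟩ | ⟨q, rfl⟩ := hg
    · simp only [th, lift_inl, FreeGroup.lift_apply_of, MonoidHom.comp_apply, rightHom_inl,
        map_one, OneMemClass.coe_one]
      rw [tendsto_iff_norm_sub_tendsto_zero]
      refine squeeze_zero (fun _ => norm_nonneg _) (fun n => norm_uz_sub_one ?_ (rho _ _).2) ?_
      · have : (0 : ℝ) ≤ n := n.cast_nonneg
        change (1 : ℝ) < n + 2
        linarith
      · refine tendsto_const_nhds.div_atTop ?_
        exact tendsto_atTop_add_const_right _ (-1)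
          (tendsto_atTop_add_const_right _ 2 tendsto_natCast_atTop_atTop)
    · simp [th]
  | one => simp
  | mul g g' _ _ hg hg' => simpa only [map_mul, Submonoid.coe_mul] using hg.mul hg'
  | inv g _ hg => simpa only [← star_model] using hg.star

include hα in
theorem nle_wreath : NLe (MonoidHom.id (FreeGroup Y ⋊[α] Q)) rightHom := by
  intro ι κ _ _ B
  rw [dd_congr (π := rightHom) (π' := (inr : Q →* FreeGroup Y ⋊[α] Q).comp rightHom)
    (fun g => (map_eq_one_iff _ inr_injective).symm)]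
  refine le_of_forall_pos_le_add fun ε hε => ?_
  obtain ⟨L, hL⟩ := loewner (th_bd hα) B
  have h1 := nul_usc (l := atTop) (M := fun _ : ℕ => reg (FreeGroup Y ⋊[α] Q))
    (fun n => th hα (big n)) ((rho _).comp (inr.comp rightHom))
    (fun g => ((reg _).τ.continuous.tendsto _).comp (tendsto_th hα g)) B (half_pos hε)
  obtain ⟨n₀, hn₀⟩ := eventually_atTop.1 h1
  obtain ⟨m, hm⟩ := exists_nat_gt (2 * |L| / ε)
  have hm0 : (0 : ℝ) < m := lt_of_le_of_lt (by positivity) hm
  have hsm : ∀ i : Fin m, |(i : ℝ) / m| < 1 := fun i => by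
    rw [abs_of_nonneg (by positivity), div_lt_one hm0]
    exact_mod_cast i.2
  have h2 := hL m (fun i => ⟨(i : ℝ) / m, (hsm i).ne⟩) (fun j => big (n₀ + j)) ?_ ?_ ?_
  · have h3 : ∀ i : Fin m, rk (B.map (ev (th hα ⟨(i : ℝ) / m, (hsm i).ne⟩))) =
        Fintype.card ι - dd (MonoidHom.id _) B := fun i => by
      rw [rk, nul_congr (chr_th hα (hsm i))]; rfl
    have h4 : ∀ j : Fin m, Fintype.card ι - (dd ((inr : Q →* FreeGroup Y ⋊[α] Q).comp rightHom) B
        + ε / 2) ≤ rk (B.map (ev (th hα (big (n₀ + j))))) := fun j =>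
      sub_le_sub_left (hn₀ _ (Nat.le_add_right _ _)).le _
    have h5 := (Finset.sum_le_sum fun j (_ : j ∈ Finset.univ) => h4 j).trans h2
    simp only [h3, Finset.sum_const, Finset.card_univ, Fintype.card_fin, nsmul_eq_mul] at h5
    rw [div_lt_iff₀ hε] at hm
    have h6 := le_abs_self L
    refine le_of_mul_le_mul_left ?_ hm0
    nlinarith
  · intro i j hij
    have : (i : ℝ) / m = j / m := Complex.ofReal_injective hij
    rw [div_left_inj' hm0.ne'] at this
    exact Fin.ext (by exact_mod_cast this)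
  · intro i j hij
    have : ((n₀ + i : ℕ) : ℝ) + 2 = (n₀ + j : ℕ) + 2 := by
      exact_mod_cast (show (((((n₀ + i : ℕ) : ℝ) + 2 : ℝ)) : ℂ) = (((n₀ + j : ℕ) : ℝ) + 2 : ℝ)
        from hij)
    exact Fin.ext (by exact_mod_cast add_left_cancel (Nat.cast_injective (add_right_cancel this)))
  · intro i j hij
    have h3 : (i : ℝ) / m = (n₀ + j : ℕ) + 2 := Complex.ofReal_injective hij
    have h4 := hsm i
    have h5 : (0 : ℝ) ≤ (n₀ + j : ℕ) := Nat.cast_nonneg _
    rw [h3, abs_lt] at h4
    linarith [h4.2]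

end wreath

end Pool.Agent.MP_c6eade_gt

end

-- part MP_c6eade_gt.Stable
section

/-!
Homomorphisms that do not decrease nullities, stably under products: centralising HNN
extensions, right-angled Artin groups, kernels acting freely on trees.
-/

namespace Pool.Agent.MP_c6eade_gt

open Filter Topology Matrix SemidirectProduct
open scoped Pointwise

universe u

variable {G D E : Type u} [Group G] [Group D] [Group E]

/-- The homomorphism does not decrease nullities, also after taking a product with any group. -/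
def SLe (φ : G →* D) : Prop :=
  ∀ (Q : Type u) [Group Q], NLe (MonoidHom.id (G × Q)) (φ.prodMap (MonoidHom.id Q))

lemma SLe.of_iff {φ : G →* D} {φ' : G →* E} (h : SLe φ) (h' : ∀ g, φ g = 1 ↔ φ' g = 1) :
    SLe φ' := fun Q _ => (h Q).trans (NLe.of_iff fun g => by simp [Prod.ext_iff, h'])

lemma SLe.of_injective {φ : G →* D} (h : Function.Injective φ) : SLe φ := fun Q _ =>
  NLe.of_iff fun g => by simp [Prod.ext_iff, map_eq_one_iff φ h]

lemma SLe.trans {φ : G →* D} {φ' : D →* E} (h : SLe φ) (h' : SLe φ') : SLe (φ'.comp φ) :=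
  fun Q _ => (h Q).trans ((h' Q).comp (φ.prodMap (MonoidHom.id Q)))

lemma sle_wreath {Y : Type u} {α : D →* MulAut (FreeGroup Y)}
    (hα : ∀ q y, ∃ y', α q (FreeGroup.of y) = FreeGroup.of y') :
    SLe (rightHom : FreeGroup Y ⋊[α] D →* D) := by
  intro Q _
  let j : (FreeGroup Y ⋊[α] D) × Q →* FreeGroup Y ⋊[α.comp (MonoidHom.fst D Q)] (D × Q) :=
    { toFun := fun x => ⟨x.1.left, (x.1.right, x.2)⟩
      map_one' := rfl
      map_mul' := fun _ _ => rfl }
  have h := (nle_wreath (α := α.comp (MonoidHom.fst D Q)) fun q y => hα q.1 y).comp j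
  refine (NLe.of_iff fun g => ?_).trans h
  simp [j, Prod.ext_iff, SemidirectProduct.ext_iff, and_assoc]

/-- The action on the free group induced by an action on the basis. -/
def fa (D Y : Type u) [Group D] [MulAction D Y] : D →* MulAut (FreeGroup Y) where
  toFun d := FreeGroup.freeGroupCongr (MulAction.toPerm d)
  map_one' := by
    refine MulEquiv.toMonoidHom_injective (FreeGroup.ext_hom _ _ fun y => ?_)
    simp [FreeGroup.freeGroupCongr]
  map_mul' d d' := by
    refine MulEquiv.toMonoidHom_injective (FreeGroup.ext_hom _ _ fun y => ?_)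
    simp [FreeGroup.freeGroupCongr, mul_smul]

lemma fa_of {Y : Type u} [MulAction D Y] (d : D) (y : Y) :
    fa D Y d (FreeGroup.of y) = FreeGroup.of (d • y) := by
  simp [fa, FreeGroup.freeGroupCongr]

lemma sle_fa {Y : Type u} [MulAction D Y] : SLe (rightHom : FreeGroup Y ⋊[fa D Y] D →* D) :=
  sle_wreath fun q y => ⟨_, fa_of q y⟩

/-- The retraction of a centralising HNN extension that kills the stable letter. -/
def hnnRet (C : Subgroup D) : HNNExtension D C C (MulEquiv.refl C) →* D :=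
  HNNExtension.lift (MonoidHom.id D) 1 (by simp)

lemma sle_hnn (C : Subgroup D) : SLe (hnnRet C) := by
  let j : HNNExtension D C C (MulEquiv.refl C) →* FreeGroup (D ⧸ C) ⋊[fa D (D ⧸ C)] D :=
    HNNExtension.lift inr (inl (FreeGroup.of ((1 : D) : D ⧸ C))) (by
      intro a
      have h : (a : D) • ((1 : D) : D ⧸ C) = ((1 : D) : D ⧸ C) := by
        rw [MulAction.Quotient.smul_coe, QuotientGroup.eq]; simp
      have h2 := inl_aut (φ := fa D (D ⧸ C)) (a : D) (FreeGroup.of ((1 : D) : D ⧸ C))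
      rw [fa_of, h, map_inv, eq_mul_inv_iff_mul_eq] at h2
      exact h2)
  let f : D ⧸ C → HNNExtension D C C (MulEquiv.refl C) := fun y =>
    HNNExtension.of y.out * HNNExtension.t * (HNNExtension.of y.out)⁻¹
  have hf : ∀ d : D, f d = HNNExtension.of d * HNNExtension.t * (HNNExtension.of d)⁻¹ := by
    intro d
    obtain ⟨c, hc⟩ := QuotientGroup.mk_out_eq_mul C d
    have h := HNNExtension.t_mul_of (φ := MulEquiv.refl C) c
    simp only [f, hc, map_mul, _root_.mul_inv_rev, mul_assoc]
    rw [← mul_assoc (HNNExtension.of (c : D)), ← MulEquiv.refl_apply c, ← h]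
    simp [mul_assoc]
  let χ : FreeGroup (D ⧸ C) ⋊[fa D (D ⧸ C)] D →* HNNExtension D C C (MulEquiv.refl C) :=
    SemidirectProduct.lift (FreeGroup.lift f) HNNExtension.of (by
      intro d
      ext1 y
      obtain ⟨d', rfl⟩ := QuotientGroup.mk_surjective y
      simp only [MonoidHom.comp_apply, MulEquiv.coe_toMonoidHom, fa_of, FreeGroup.lift_apply_of,
        MulAut.conj_apply, MulAction.Quotient.smul_coe, hf, smul_eq_mul, map_mul]
      group)
  have h1 : χ.comp j = MonoidHom.id _ := by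
    refine HNNExtension.hom_ext ?_ ?_
    · ext d; simp [χ, j]
    · simp [χ, j, hf]
  have h2 : Function.Injective j :=
    Function.LeftInverse.injective (g := χ) (DFunLike.congr_fun h1)
  have h3 : rightHom.comp j = hnnRet C := by
    refine HNNExtension.hom_ext ?_ ?_
    · ext d; simp [j, hnnRet]
    · simp [j, hnnRet]
  rw [← h3]
  exact (SLe.of_injective h2).trans sle_fa

section raag

variable {V : Type u} (Γ : SimpleGraph V)

lemma raag_comm {x y : V} (h : Γ.Adj x y) :
    Commute (PresentedGroup.of x : RAAG Γ) (PresentedGroup.of y) := by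
  have := PresentedGroup.one_of_mem (rels := {r : FreeGroup V | ∃ x y : V, Γ.Adj x y ∧
    r = FreeGroup.of x * FreeGroup.of y * (FreeGroup.of x)⁻¹ * (FreeGroup.of y)⁻¹})
    ⟨x, y, h, rfl⟩
  rw [← commutatorElement_eq_one_iff_commute]
  exact this

/-- The universal property. -/
def raagLift (f : V → G) (h : ∀ x y, Γ.Adj x y → Commute (f x) (f y)) : RAAG Γ →* G :=
  PresentedGroup.toGroup (f := f) (by
    rintro _ ⟨x, y, hxy, rfl⟩
    have := commutatorElement_eq_one_iff_commute.2 (h x y hxy)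
    simpa [commutatorElement_def] using this)

lemma raagLift_of (f : V → G) (h : ∀ x y, Γ.Adj x y → Commute (f x) (f y)) (x : V) :
    raagLift Γ f h (PresentedGroup.of x) = f x := PresentedGroup.toGroup.of _

open Classical in
/-- The retraction that kills a finite set of generators. -/
noncomputable def kill (S : Finset V) : RAAG Γ →* RAAG Γ :=
  raagLift Γ (fun x => if x ∈ S then 1 else PresentedGroup.of x) (by
    intro x y h
    split_ifs
    · exact Commute.refl _
    · exact Commute.one_left _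
    · exact Commute.one_right _
    · exact raag_comm Γ h)

open Classical in
lemma kill_of (S : Finset V) (x : V) :
    kill Γ S (PresentedGroup.of x) = if x ∈ S then 1 else PresentedGroup.of x :=
  raagLift_of _ _ _ _

lemma sle_kill_one (v : V) : SLe (kill Γ {v}) := by
  classical
  let C : Subgroup (RAAG Γ) := Subgroup.closure {g | ∃ x, Γ.Adj x v ∧ g = PresentedGroup.of x}
  have hC : ∀ x, Γ.Adj x v → Commute (HNNExtension.t : HNNExtension _ C C (MulEquiv.refl C))
      (HNNExtension.of (PresentedGroup.of x)) := fun x hx =>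
    HNNExtension.t_mul_of (φ := MulEquiv.refl C) ⟨_, Subgroup.subset_closure ⟨x, hx, rfl⟩⟩
  let ψ : RAAG Γ →* HNNExtension _ C C (MulEquiv.refl C) :=
    raagLift Γ (fun x => if x = v then HNNExtension.t else HNNExtension.of (PresentedGroup.of x))
      (by
        intro x y h
        split_ifs with hx hy hy
        · exact Commute.refl _
        · exact hC y (hx ▸ h.symm)
        · exact (hC x (hy ▸ h)).symm
        · exact (raag_comm Γ h).map _)
  let χ : HNNExtension _ C C (MulEquiv.refl C) →* RAAG Γ :=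
    HNNExtension.lift (kill Γ {v}) (PresentedGroup.of v) (by
      rintro ⟨c, hc⟩
      change Commute (PresentedGroup.of v) (kill Γ {v} c)
      induction hc using Subgroup.closure_induction with
      | mem g hg =>
        obtain ⟨x, hx, rfl⟩ := hg
        rw [kill_of, if_neg (by simpa using hx.ne)]
        exact raag_comm Γ hx.symm
      | one => simp
      | mul g g' _ _ hg hg' => rw [map_mul]; exact hg.mul_right hg'
      | inv g _ hg => rw [map_inv]; exact hg.inv_right)
  have h1 : χ.comp ψ = MonoidHom.id _ := by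
    refine PresentedGroup.ext fun x => ?_
    by_cases hx : x = v <;> simp [χ, ψ, raagLift_of, kill_of, hx]
  have h2 : Function.Injective ψ :=
    Function.LeftInverse.injective (g := χ) (DFunLike.congr_fun h1)
  have h3 : (hnnRet C).comp ψ = kill Γ {v} := by
    refine PresentedGroup.ext fun x => ?_
    by_cases hx : x = v <;> simp [ψ, raagLift_of, kill_of, hx, hnnRet]
  rw [← h3]
  exact (SLe.of_injective h2).trans (sle_hnn C)

lemma sle_kill (S : Finset V) : SLe (kill Γ S) := by
  classical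
  induction S using Finset.induction_on with
  | empty =>
    have : kill Γ ∅ = MonoidHom.id _ := PresentedGroup.ext fun x => by simp [kill_of]
    rw [this]
    exact SLe.of_injective Function.injective_id
  | insert v S _ ih =>
    have : kill Γ (insert v S) = (kill Γ {v}).comp (kill Γ S) := by
      refine PresentedGroup.ext fun x => ?_
      by_cases hx : x ∈ S <;> simp [kill_of, hx]
    rw [this]
    exact ih.trans (sle_kill_one Γ v)

lemma eventually_kill (g : RAAG Γ) : ∀ᶠ S in atTop, kill Γ S g = 1 := by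
  classical
  have hg : g ∈ Subgroup.closure _ := PresentedGroup.closure_range_of _ ▸ Subgroup.mem_top g
  induction hg using Subgroup.closure_induction with
  | mem g hg =>
    obtain ⟨x, rfl⟩ := hg
    filter_upwards [eventually_ge_atTop {x}] with S hS
    rw [kill_of, if_pos (by simpa using hS)]
  | one => simp
  | mul g g' _ _ hg hg' => filter_upwards [hg, hg'] with S h h'; rw [map_mul, h, h', mul_one]
  | inv g _ hg => filter_upwards [hg] with S h; rw [map_inv, h, inv_one]

lemma sle_raag : SLe (1 : RAAG Γ →* RAAG Γ) := by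
  classical
  intro Q _ ι κ _ _ B
  have h : ∀ᶠ S in atTop, ∀ k i, ∀ g ∈ (B k i).coeff.support, kill Γ S g.1 = 1 := by
    simp only [eventually_all, eventually_all_finset]
    exact fun k i g _ => eventually_kill Γ g.1
  obtain ⟨S, hS⟩ := h.exists
  refine (sle_kill Γ S Q ι κ B).trans (dd_congr_support B fun k i g hg => ?_).le
  simp [Prod.ext_iff, hS k i g hg]

end raag

section tree

variable {V : Type u} {T : SimpleGraph V} [MulAction G V] (M : Subgroup G) [M.Normal]

/-- The orbit of a pair of vertices. -/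
def orb (p : V × V) : MulAction.fixedPoints M (Set (V × V)) :=
  ⟨MulAction.orbit M p, fun m => MulAction.smul_orbit m p⟩

lemma smul_orb (g : G) (p : V × V) : (g : G ⧸ M) • orb M p = orb M (g • p) := by
  refine Subtype.ext ?_
  change g • MulAction.orbit M p = MulAction.orbit M (g • p)
  ext q
  constructor
  · rintro ⟨_, ⟨m, rfl⟩, rfl⟩
    exact ⟨⟨g * m * g⁻¹, ‹M.Normal›.conj_mem _ m.2 g⟩, by simp [Subgroup.smul_def, mul_smul]⟩
  · rintro ⟨m, rfl⟩
    exact ⟨_, ⟨⟨g⁻¹ * m * g, ‹M.Normal›.conj_mem' _ m.2 g⟩, rfl⟩,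
      by simp [Subgroup.smul_def, mul_smul]⟩

lemma exists_of_orb_eq {p q : V × V} (h : orb M p = orb M q) : ∃ m ∈ M, m • q = p := by
  have h1 : MulAction.orbit M p = MulAction.orbit M q := congrArg Subtype.val h
  obtain ⟨m, hm⟩ := MulAction.orbit_eq_iff.1 h1
  exact ⟨m, m.2, hm⟩

/-- The word attached to a walk. -/
def wd : ∀ {u v : V}, T.Walk u v → List (MulAction.fixedPoints M (Set (V × V)) × Bool)
  | _, _, .nil => []
  | u, _, .cons (v := v) _ q => (orb M (u, v), true) :: (orb M (v, u), false) :: wd q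

lemma mk_wd_cons {u v w : V} (h : T.Adj u v) (q : T.Walk v w) :
    FreeGroup.mk (wd M (.cons h q)) =
      FreeGroup.of (orb M (u, v)) * (FreeGroup.of (orb M (v, u)))⁻¹ * FreeGroup.mk (wd M q) := rfl

lemma mk_wd_append {u v w : V} (p : T.Walk u v) (q : T.Walk v w) :
    FreeGroup.mk (wd M (p.append q)) = FreeGroup.mk (wd M p) * FreeGroup.mk (wd M q) := by
  induction p with
  | nil => rw [SimpleGraph.Walk.nil_append, wd, ← FreeGroup.one_eq_mk, one_mul]
  | cons h p ih =>
    rw [SimpleGraph.Walk.cons_append, mk_wd_cons, mk_wd_cons, ih,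
      mul_assoc _ _ (FreeGroup.mk (wd M q))]

lemma mk_wd_map (g : G) (f : T →g T) (hf : ∀ v, f v = g • v) {u v : V} (p : T.Walk u v) :
    FreeGroup.mk (wd M (p.map f)) = fa (G ⧸ M) _ (g : G ⧸ M) (FreeGroup.mk (wd M p)) := by
  induction p with
  | nil => rw [SimpleGraph.Walk.map_nil, wd, wd, ← FreeGroup.one_eq_mk, map_one]
  | cons h p ih =>
    rw [SimpleGraph.Walk.map_cons, mk_wd_cons, mk_wd_cons, ih, map_mul, map_mul, map_inv, fa_of,
      fa_of, smul_orb, smul_orb]
    simp [hf]

lemma mk_wd_eq (hT : T.IsAcyclic) {u v : V} (p q : T.Walk u v) (hq : q.IsPath) :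
    FreeGroup.mk (wd M p) = FreeGroup.mk (wd M q) := by
  classical
  induction p with
  | nil => rw [(SimpleGraph.Walk.isPath_iff_nil.1 hq).eq_nil]
  | @cons u v w h p ih =>
    rw [mk_wd_cons, ih p.bypass p.bypass_isPath]
    have hr := p.bypass_isPath
    generalize p.bypass = r at hr
    by_cases hu : u ∈ r.support
    · have h1 := hT.eq_snd_of_adj_start hr h.symm hu
      cases r with
      | nil => exact absurd (by simpa using hu) h.ne
      | cons h' r' =>
        obtain rfl : u = _ := by simpa using h1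
        have h2 : r' = q :=
          congrArg Subtype.val ((hT.subsingleton_path _ _).elim ⟨r', hr.of_cons⟩ ⟨q, hq⟩)
        rw [mk_wd_cons, h2]
        group
    · have h2 : SimpleGraph.Walk.cons h r = q :=
        congrArg Subtype.val ((hT.subsingleton_path _ _).elim ⟨_, hr.cons hu⟩ ⟨q, hq⟩)
      rw [← h2, mk_wd_cons]

lemma wd_reduced (hfree : ∀ g ∈ M, g ≠ 1 → (∀ v : V, g • v ≠ v) ∧
      ∀ v w : V, T.Adj v w → g • v = w → g • w ≠ v)
    {u v : V} (p : T.Walk u v) (hp : p.IsPath) : FreeGroup.IsReduced (wd M p) := by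
  induction p with
  | nil => simp [wd]
  | @cons u v w h p ih =>
    rw [SimpleGraph.Walk.cons_isPath_iff] at hp
    rw [wd, FreeGroup.isReduced_cons_cons]
    refine ⟨fun h1 => ?_, ?_⟩
    · obtain ⟨m, hm, h2⟩ := exists_of_orb_eq M h1
      simp only [Prod.smul_mk, Prod.mk.injEq] at h2
      by_cases hm1 : m = 1
      · exact absurd (by simpa [hm1] using h2.2) h.ne
      · exact absurd h2.1 ((hfree m hm hm1).2 u v h h2.2)
    · cases p with
      | nil => simp [wd]
      | @cons _ x _ h' p' =>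
        have h3 := ih hp.1
        rw [wd] at h3 ⊢
        refine FreeGroup.isReduced_cons_cons.2 ⟨fun h1 => ?_, h3⟩
        obtain ⟨m, hm, h2⟩ := exists_of_orb_eq M h1
        simp only [Prod.smul_mk, Prod.mk.injEq] at h2
        by_cases hm1 : m = 1
        · obtain rfl : x = u := by simpa [hm1] using h2.2
          exact absurd (by simp) hp.2
        · exact absurd h2.1 ((hfree m hm hm1).1 v)

lemma sle_tree_aux (hT : T.IsTree) (hadj : ∀ (g : G) v w, T.Adj v w → T.Adj (g • v) (g • w))
    (hfree : ∀ g ∈ M, g ≠ 1 → (∀ v : V, g • v ≠ v) ∧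
      ∀ v w : V, T.Adj v w → g • v = w → g • w ≠ v) : SLe (QuotientGroup.mk' M) := by
  classical
  choose P hP _ using hT.existsUnique_path
  obtain ⟨v₀⟩ := hT.connected.nonempty
  let L : V → V → FreeGroup (MulAction.fixedPoints M (Set (V × V))) := fun u v =>
    FreeGroup.mk (wd M (P u v))
  have h1 : ∀ u v w, L u v * L v w = L u w := fun u v w => by
    rw [← mk_wd_append]; exact mk_wd_eq M hT.isAcyclic _ _ (hP _ _)
  have h2 : ∀ (g : G) u v, fa (G ⧸ M) _ (g : G ⧸ M) (L u v) = L (g • u) (g • v) := fun g u v => by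
    rw [← mk_wd_map M g ⟨fun v => g • v, fun h => hadj g _ _ h⟩ fun _ => rfl]
    exact mk_wd_eq M hT.isAcyclic _ _ (hP _ _)
  let j : G →* FreeGroup (MulAction.fixedPoints M (Set (V × V))) ⋊[fa (G ⧸ M) _] (G ⧸ M) :=
    MonoidHom.mk' (fun g => ⟨L v₀ (g • v₀), g⟩) fun g h => by
      refine SemidirectProduct.ext ?_ rfl
      simp only [mul_left, h2, h1, mul_smul]
  have h3 : Function.Injective j := by
    rw [injective_iff_map_eq_one]
    intro g hg
    by_contra hg1
    have h4 : g ∈ M := (QuotientGroup.eq_one_iff g).1 (congrArg SemidirectProduct.right hg)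
    have h5 : FreeGroup.mk (wd M (P v₀ (g • v₀))) = 1 := congrArg SemidirectProduct.left hg
    have h6 : wd M (P v₀ (g • v₀)) = [] := by
      rw [← (wd_reduced M hfree _ (hP _ _)).reduce_eq, ← FreeGroup.toWord_mk, h5,
        FreeGroup.toWord_one]
    have h7 := (hfree g h4 hg1).1 v₀
    generalize P v₀ (g • v₀) = p at h6
    generalize g • v₀ = w at p h6 h7
    cases p with
    | nil => exact h7 rfl
    | cons h p => simp [wd] at h6
  have h4 : rightHom.comp j = QuotientGroup.mk' M := MonoidHom.ext fun _ => rfl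
  rw [← h4]
  exact (SLe.of_injective h3).trans sle_fa

end tree

lemma sle_tree (φ : G →* D) (h : FreeOnTree φ.ker) : SLe φ := by
  obtain ⟨V, T, a, hT, hfree⟩ := h
  let _ : MulAction G V :=
    { smul := fun g v => a g v
      one_smul := fun v => by change a 1 v = v; rw [map_one]; rfl
      mul_smul := fun g h v => by change a (g * h) v = a g (a h v); rw [map_mul]; rfl }
  refine (sle_tree_aux φ.ker hT (fun g v w h => (a g).map_adj_iff.2 h) hfree).of_iff fun g => ?_
  simp [QuotientGroup.eq_one_iff]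

end Pool.Agent.MP_c6eade_gt

end
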